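import Pool.Agent.Talagrand.Limit

/-!
# The infinite-dimensional theorem
-/

set_option autoImplicit false

open MeasureTheory ProbabilityTheory Set Metric Filter Topology
open scoped ENNReal NNReal Pointwise

namespace Pool.Agent.Talagrand

/-- Every compact set of Gaussian measure at least `99/100` is such that `K - 4K - 4K` contains a
compact convex set of Gaussian measure at least `1/100`. -/
theorem infinite_dim {K : Set (ℕ → ℝ)} (hK : IsCompact K)
    (hKγ : (99 / 100 : ℝ) ≤ gamInf.real K) :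
    ∃ C : Set (ℕ → ℝ), IsCompact C ∧ Convex ℝ C ∧ C ⊆ S9i K ∧ (1 / 100 : ℝ) ≤ gamInf.real C := by
  have hS := S9i_compact hK
  have hbd : ∀ i : ℕ, ∃ M : ℝ, ∀ x ∈ S9i K, |x i| ≤ M := by
    intro i
    obtain ⟨M, hM⟩ := (hS.image (continuous_apply i)).isBounded.exists_norm_le
    exact ⟨M, fun x hx => hM _ ⟨x, hx, rfl⟩⟩
  choose M hM using hbd
  set B : ℕ → Set (ℕ → ℝ) := fun n => {x | ∀ i < n, |x i| ≤ M i} with hB
  set Q : Set (ℕ → ℝ) := Set.pi univ (fun i => Icc (-M i) (M i)) with hQdef
  have hQ : IsCompact Q := isCompact_univ_pi (fun i => isCompact_Icc)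
  have hQc : Convex ℝ Q := convex_pi (fun i _ => convex_Icc _ _)
  have hBQ : ⋂ n, B n = Q := by
    ext x
    simp only [hB, hQdef, mem_iInter, Set.mem_pi, mem_univ, true_implies, mem_Icc]
    constructor
    · intro h i
      have := h (i + 1) i (Nat.lt_succ_self i)
      exact abs_le.mp this
    · intro h n i _
      exact abs_le.mpr (h i)
  have hBclosed : ∀ n, IsClosed (B n) := by
    intro n
    have : B n = ⋂ i : ℕ, ⋂ _ : i < n, {x : ℕ → ℝ | |x i| ≤ M i} := by
      ext x; simp [hB]
    rw [this]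
    exact isClosed_iInter fun i => isClosed_iInter fun _ =>
      isClosed_le (by fun_prop) continuous_const
  have hBanti : Antitone B := by
    intro m n hmn x hx i hi
    exact hx i (lt_of_lt_of_le hi hmn)
  have htend : Tendsto (fun n => gamInf.real (B n)) atTop (𝓝 (gamInf.real Q)) := by
    have h1 : Tendsto (fun n => gamInf (B n)) atTop (𝓝 (gamInf (⋂ n, B n))) :=
      tendsto_measure_iInter_atTop (fun n => (hBclosed n).measurableSet.nullMeasurableSet)
        hBanti ⟨0, measure_ne_top _ _⟩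
    rw [hBQ] at h1
    exact (ENNReal.tendsto_toReal (measure_ne_top _ _)).comp h1
  have hfin : ∀ n : ℕ, ∃ C : Set (Fin (n+1) → ℝ), IsCompact C ∧ Convex ℝ C ∧
      C ⊆ S9 (pr (n+1) '' K) ∧ (1/100 : ℝ) ≤ (gam (n+1)).real C := by
    intro n
    apply finite_dim (Nat.succ_pos n) (hK.image (pr_cont _))
    rw [← map_pr, map_measureReal_apply (pr_cont _).measurable
      (hK.image (pr_cont _)).isClosed.measurableSet]
    exact hKγ.trans (measureReal_mono (subset_preimage_image _ _))
  choose C hC1 hC2 hC3 hC4 using hfin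
  have hCsub : ∀ n, ∀ x : ℕ → ℝ, pr (n+1) x ∈ C n → ∃ s ∈ S9i K, ∀ i < n + 1, s i = x i := by
    intro n x hx
    obtain ⟨s, hs, hsx⟩ := S9_pr _ _ (hC3 n hx)
    exact ⟨s, hs, fun i hi => congrFun hsx ⟨i, hi⟩⟩
  set D : ℕ → Set (ℕ → ℝ) := fun n => Q ∩ pr (n+1) ⁻¹' (C n) with hD
  refine limit_set hQ D (fun n => inter_subset_left) (fun n => hQc.inter ?_) hS.isClosed ?_ ?_
  · intro x hx y hy a b ha hb hab
    exact hC2 n hx hy ha hb hab
  · intro m
    filter_upwards [eventually_ge_atTop m] with n hn x hx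
    obtain ⟨s, hs, hsx⟩ := hCsub n x hx.2
    exact ⟨s, hs, fun i hi => hsx i (by omega)⟩
  · intro η hη
    have h1 : ∀ᶠ n in atTop, gamInf.real (B (n + 1)) < gamInf.real Q + η := by
      have := (tendsto_add_atTop_iff_nat 1).mpr htend
      exact this.eventually_lt_const (by linarith)
    filter_upwards [h1] with n hn
    have h2 : (1/100 : ℝ) ≤ gamInf.real (pr (n+1) ⁻¹' C n) := by
      have := hC4 n
      rwa [← map_pr, map_measureReal_apply (pr_cont _).measurable
        (hC1 n).isClosed.measurableSet] at this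
    have hQB : Q ⊆ B (n + 1) := by
      rw [← hBQ]; exact iInter_subset _ _
    have h3 : pr (n+1) ⁻¹' C n ⊆ D n ∪ (B (n+1) \ Q) := by
      intro x hx
      by_cases hxQ : x ∈ Q
      · exact Or.inl ⟨hxQ, hx⟩
      · refine Or.inr ⟨?_, hxQ⟩
        intro i hi
        obtain ⟨s, hs, hsx⟩ := hCsub n x hx
        rw [← hsx i hi]
        exact hM i s hs
    have h4 : gamInf.real (B (n+1) \ Q) = gamInf.real (B (n+1)) - gamInf.real Q := by
      rw [measureReal_sdiff hQB hQ.isClosed.measurableSet]
    have h5 := (measureReal_mono h3 (μ := gamInf)).trans (measureReal_union_le _ _)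
    linarith

end Pool.Agent.Talagrand
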