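import Pool.Agent.Talagrand.Finite

/-!
# Passage to infinite dimension
-/

set_option autoImplicit false

open MeasureTheory ProbabilityTheory Set Metric Filter Topology
open scoped ENNReal NNReal Pointwise

namespace Pool.Agent.Talagrand

/-- Infinite standard Gaussian product. -/
noncomputable abbrev gamInf : Measure (ℕ → ℝ) := Measure.infinitePi (fun _ : ℕ => gaussianReal 0 1)

/-- Restriction to the first `n` coordinates. -/
def pr (n : ℕ) (x : ℕ → ℝ) : Fin n → ℝ := fun i => x i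

lemma pr_cont (n : ℕ) : Continuous (pr n) := by
  unfold pr; fun_prop

lemma map_pr (n : ℕ) : gamInf.map (pr n) = gam n := by
  symm
  apply Measure.pi_eq
  intro s hs
  rw [Measure.map_apply (pr_cont n).measurable (MeasurableSet.univ_pi hs)]
  classical
  set t : ℕ → Set ℝ := fun i => if h : i < n then s ⟨i, h⟩ else univ with ht
  have e : pr n ⁻¹' (Set.pi univ s) = Set.pi (Finset.range n : Set ℕ) t := by
    ext x
    simp only [mem_preimage, Set.mem_pi, mem_univ, true_implies, Finset.coe_range, mem_Iio, pr, ht]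
    constructor
    · intro h i hi
      rw [dif_pos hi]
      exact h ⟨i, hi⟩
    · intro h i
      have := h i.1 i.2
      rw [dif_pos i.2] at this
      exact this
  rw [e, Measure.infinitePi_pi (fun _ : ℕ => gaussianReal 0 1) (fun i _ => by
    simp only [ht]
    split_ifs with h
    · exact hs _
    · exact MeasurableSet.univ)]
  rw [Finset.prod_range]
  refine Finset.prod_congr rfl (fun i _ => ?_)
  simp only [ht]
  rw [dif_pos i.2]

/-- The set `K - 4K - 4K` in infinite dimension. -/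
def S9i (K : Set (ℕ → ℝ)) : Set (ℕ → ℝ) :=
  (fun q : (ℕ → ℝ) × (ℕ → ℝ) × (ℕ → ℝ) => q.1 - (4:ℝ) • (q.2.1 + q.2.2)) '' (K ×ˢ (K ×ˢ K))

lemma S9i_compact {K : Set (ℕ → ℝ)} (hK : IsCompact K) : IsCompact (S9i K) :=
  (hK.prod (hK.prod hK)).image (by fun_prop)

lemma S9_pr (n : ℕ) (K : Set (ℕ → ℝ)) : S9 (pr n '' K) ⊆ pr n '' S9i K := by
  rintro _ ⟨⟨_, _, _⟩, ⟨⟨a, ha, rfl⟩, ⟨b, hb, rfl⟩, ⟨c, hc, rfl⟩⟩, rfl⟩
  exact ⟨_, ⟨(a, b, c), ⟨ha, hb, hc⟩, rfl⟩, rfl⟩

/-- Abstract limit argument: given convex sets `D n` in a compact `Q`, there is a limit set. -/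
lemma limit_set {Q : Set (ℕ → ℝ)} (hQ : IsCompact Q) (D : ℕ → Set (ℕ → ℝ))
    (hDQ : ∀ n, D n ⊆ Q) (hDc : ∀ n, Convex ℝ (D n)) {S : Set (ℕ → ℝ)} (hS : IsClosed S)
    (hDS : ∀ m, ∀ᶠ n in atTop, ∀ x ∈ D n, ∃ s ∈ S, ∀ i < m, s i = x i)
    {δ : ℝ} (hmeas : ∀ η > 0, ∀ᶠ n in atTop, δ - η ≤ (gamInf).real (D n)) :
    ∃ C : Set (ℕ → ℝ), IsCompact C ∧ Convex ℝ C ∧ C ⊆ S ∧ δ ≤ (gamInf).real C := by
  set U : Ultrafilter ℕ := hyperfilter ℕ with hU
  have hUtop : (U : Filter ℕ) ≤ atTop := by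
    rw [← Nat.cofinite_eq_atTop]
    exact hyperfilter_le_cofinite
  set C : Set (ℕ → ℝ) := {x | x ∈ Q ∧ ∀ V ∈ 𝓝 x, ∀ᶠ n in (U : Filter ℕ), (V ∩ D n).Nonempty}
    with hC
  have hCclosed : IsClosed C := by
    rw [← closure_subset_iff_isClosed]
    intro x hx
    refine ⟨?_, ?_⟩
    · have : C ⊆ Q := fun y hy => hy.1
      exact hQ.isClosed.closure_subset_iff.mpr this hx
    · intro V hV
      obtain ⟨W, hWV, hWo, hxW⟩ := mem_nhds_iff.mp hV
      obtain ⟨y, hyW, hyC⟩ := mem_closure_iff.mp hx W hWo hxW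
      filter_upwards [hyC.2 W (hWo.mem_nhds hyW)] with n hn
      exact hn.mono (inter_subset_inter_left _ hWV)
  have hCcomp : IsCompact C := hQ.of_isClosed_subset hCclosed (fun y hy => hy.1)
  have hQD : ∀ n, (D n) ⊆ Q := hDQ
  refine ⟨C, hCcomp, ?_, ?_, ?_⟩
  · intro x hx y hy a b ha hb hab
    have hlim : ∀ V ∈ 𝓝 (a • x + b • y), ∀ᶠ n in (U : Filter ℕ), (V ∩ D n).Nonempty := by
      intro V hV
      have hcont : Continuous (fun p : (ℕ → ℝ) × (ℕ → ℝ) => a • p.1 + b • p.2) := by fun_prop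
      have h1 : (fun p : (ℕ → ℝ) × (ℕ → ℝ) => a • p.1 + b • p.2) ⁻¹' V ∈ 𝓝 (x, y) :=
        hcont.continuousAt.preimage_mem_nhds hV
      rw [nhds_prod_eq, mem_prod_iff] at h1
      obtain ⟨V₁, hV₁, V₂, hV₂, hVV⟩ := h1
      filter_upwards [hx.2 V₁ hV₁, hy.2 V₂ hV₂] with n hn1 hn2
      obtain ⟨p, hp1, hp2⟩ := hn1
      obtain ⟨q, hq1, hq2⟩ := hn2
      exact ⟨a • p + b • q, hVV (mk_mem_prod hp1 hq1), hDc n hp2 hq2 ha hb hab⟩
    refine ⟨?_, hlim⟩
    -- membership in `Q`: closedness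
    have : a • x + b • y ∈ closure Q := by
      rw [mem_closure_iff_nhds]
      intro V hV
      obtain ⟨n, hn⟩ := (hlim V hV).exists
      exact hn.mono (inter_subset_inter_right _ (hDQ n))
    rwa [hQ.isClosed.closure_eq] at this
  · intro x hx
    have : x ∈ closure S := by
      rw [mem_closure_iff_nhds]
      intro V hV
      rw [nhds_pi, Filter.mem_pi] at hV
      obtain ⟨I, hI, t, ht, htV⟩ := hV
      obtain ⟨m, hm⟩ : ∃ m : ℕ, ∀ i ∈ I, i < m := by
        obtain ⟨M, hM⟩ := hI.bddAbove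
        exact ⟨M + 1, fun i hi => Nat.lt_succ_of_le (hM hi)⟩
      have hV' : I.pi t ∈ 𝓝 x := by
        rw [set_pi_mem_nhds_iff hI]
        exact fun i _ => ht i
      have h1 := hUtop (hDS m)
      obtain ⟨n, hn1, hn2⟩ := ((hx.2 (I.pi t) hV').and h1).exists
      obtain ⟨z, hz1, hz2⟩ := hn1
      obtain ⟨s, hs, hsz⟩ := hn2 z hz2
      refine ⟨s, htV ?_, hs⟩
      intro i hi
      rw [hsz i (hm i hi)]
      exact hz1 i hi
    rwa [hS.closure_eq] at this
  · -- measure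
    have hopen : ∀ W : Set (ℕ → ℝ), C ⊆ W → IsOpen W → δ ≤ (gamInf).real W := by
      intro W hCW hW
      have hcompl : IsCompact (Q \ W) := hQ.diff hW
      have hev : ∀ᶠ n in (U : Filter ℕ), D n ⊆ W := by
        have hloc : ∀ x ∈ Q \ W, ∃ V ∈ 𝓝 x, ∀ᶠ n in (U : Filter ℕ), ¬ (V ∩ D n).Nonempty := by
          intro x hx
          have hxC : x ∉ C := fun h => hx.2 (hCW h)
          have : ¬ ∀ V ∈ 𝓝 x, ∀ᶠ n in (U : Filter ℕ), (V ∩ D n).Nonempty :=
            fun h => hxC ⟨hx.1, h⟩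
          simp only [not_forall] at this
          obtain ⟨V, hV, hVn⟩ := this
          exact ⟨V, hV, Ultrafilter.eventually_not.mpr hVn⟩
        choose! V hV hVn using hloc
        obtain ⟨t, htQ, htcov⟩ := hcompl.elim_nhds_subcover V hV
        have hall : ∀ᶠ n in (U : Filter ℕ), ∀ x ∈ t, ¬ (V x ∩ D n).Nonempty := by
          rw [Filter.eventually_all_finset]
          intro x hx
          exact hVn x (htQ x hx)
        filter_upwards [hall] with n hn
        intro z hz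
        by_contra hzW
        have := htcov ⟨hDQ n hz, hzW⟩
        simp only [mem_iUnion, exists_prop] at this
        obtain ⟨x, hx, hzx⟩ := this
        exact hn x hx ⟨z, hzx, hz⟩
      apply le_of_forall_pos_le_add
      intro η hη
      obtain ⟨n, hn1, hn2⟩ := (hev.and (hUtop (hmeas η hη))).exists
      have : (gamInf).real (D n) ≤ (gamInf).real W := measureReal_mono hn1
      linarith
    by_contra hlt
    push Not at hlt
    have hlt' : gamInf C < ENNReal.ofReal δ := by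
      rw [ENNReal.lt_ofReal_iff_toReal_lt (measure_ne_top _ _)]
      exact hlt
    obtain ⟨W, hCW, hWo, hWlt⟩ := C.exists_isOpen_lt_of_lt (μ := gamInf) _ hlt'
    have h1 := hopen W hCW hWo
    rw [ENNReal.lt_ofReal_iff_toReal_lt (measure_ne_top _ _)] at hWlt
    exact absurd h1 (not_le.mpr hWlt)

end Pool.Agent.Talagrand
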