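import Pool.Agent.Talagrand.Station

/-!
# Densities of the pieces and the union bound
-/

set_option autoImplicit false

open MeasureTheory ProbabilityTheory Set Metric
open scoped ENNReal NNReal

namespace Pool.Agent.Talagrand

variable {n : ℕ} {ι : Type} [Fintype ι]

/-- The Gaussian density. -/
noncomputable def G0 (y : Fin n → ℝ) : ℝ := ∏ k, gaussianPDFReal 0 1 (y k)

lemma G0_cont : Continuous (G0 : (Fin n → ℝ) → ℝ) := by
  unfold G0 gaussianPDFReal
  fun_prop

lemma G0_pos (y : Fin n → ℝ) : 0 < G0 y :=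
  Finset.prod_pos (fun k _ => gaussianPDFReal_pos 0 1 (y k) (by norm_num))

lemma G0_integrable : Integrable (G0 : (Fin n → ℝ) → ℝ) := by
  unfold G0
  exact Integrable.fintype_prod (fun _ => integrable_gaussianPDFReal 0 1)

lemma G0_lc (y z : Fin n → ℝ) :
    G0 y * G0 z * Real.exp (1 / 4 * ∑ i, (y i - z i) ^ 2) = G0 ((1 / 2 : ℝ) • (y + z)) ^ 2 := by
  unfold G0
  rw [Finset.mul_sum, Real.exp_sum, ← Finset.prod_mul_distrib, ← Finset.prod_mul_distrib,
    ← Finset.prod_pow]
  refine Finset.prod_congr rfl (fun k _ => ?_)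
  unfold gaussianPDFReal
  simp only [Pi.smul_apply, Pi.add_apply, smul_eq_mul]
  set c := (Real.sqrt (2 * Real.pi * ((1 : ℝ≥0) : ℝ)))⁻¹ with hc
  calc c * Real.exp (-(y k - 0) ^ 2 / (2 * ((1 : ℝ≥0) : ℝ))) *
        (c * Real.exp (-(z k - 0) ^ 2 / (2 * ((1 : ℝ≥0) : ℝ)))) *
        Real.exp (1 / 4 * (y k - z k) ^ 2)
      = c ^ 2 * (Real.exp (-(y k - 0) ^ 2 / (2 * ((1 : ℝ≥0) : ℝ))) *
        Real.exp (-(z k - 0) ^ 2 / (2 * ((1 : ℝ≥0) : ℝ))) *
        Real.exp (1 / 4 * (y k - z k) ^ 2)) := by ring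
    _ = c ^ 2 * (Real.exp (-(1 / 2 * (y k + z k) - 0) ^ 2 / (2 * ((1 : ℝ≥0) : ℝ)))) ^ 2 := by
        rw [← Real.exp_add, ← Real.exp_add, ← Real.exp_nat_mul]
        congr 2
        push_cast
        ring
    _ = _ := by ring

lemma gam_eq : gam n = volume.withDensity (fun y => ENNReal.ofReal (G0 y)) := by
  refine Measure.pi_eq (fun s hs => ?_)
  rw [withDensity_apply _ (MeasurableSet.univ_pi hs)]
  rw [← ofReal_integral_eq_lintegral_ofReal G0_integrable.restrict
    (Filter.Eventually.of_forall (fun y => (G0_pos y).le))]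
  rw [volume_pi, Measure.restrict_pi_pi]
  unfold G0
  rw [integral_fintype_prod_eq_prod (𝕜 := ℝ) (f := fun _ => gaussianPDFReal 0 1)]
  rw [ENNReal.ofReal_prod_of_nonneg (fun i _ =>
    integral_nonneg (fun y => gaussianPDFReal_nonneg 0 1 y))]
  refine Finset.prod_congr rfl (fun i _ => ?_)
  rw [gaussianReal_apply_eq_integral 0 (by norm_num)]

lemma gam_setIntegral {A : Set (Fin n → ℝ)} (hA : MeasurableSet A) (F : (Fin n → ℝ) → ℝ) :
    ∫ y in A, F y ∂(gam n) = ∫ y in A, G0 y * F y := by
  rw [gam_eq, setIntegral_withDensity_eq_setIntegral_toReal_smul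
    (G0_cont.measurable.ennreal_ofReal) (Filter.Eventually.of_forall (fun y =>
      ENNReal.ofReal_lt_top)) _ hA]
  refine setIntegral_congr_fun hA (fun y _ => ?_)
  simp only [smul_eq_mul]
  rw [ENNReal.toReal_ofReal (G0_pos y).le]

/-- Mass of a piece. -/
noncomputable def pm (β R : ℝ) (x h : ι → Fin n → ℝ) (i : ι) : ℝ :=
  ∫ y in closedBall (0 : Fin n → ℝ) R, rho β x h i y ∂(gam n)

/-- Density of a piece. -/
noncomputable def ph (β R : ℝ) (x h : ι → Fin n → ℝ) (i : ι) (y : Fin n → ℝ) : ℝ :=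
  (closedBall (0 : Fin n → ℝ) R).indicator (fun y => rho β x h i y * G0 y / pm β R x h i) y

lemma pm_pos {β R : ℝ} (hR : 0 < R) (x h : ι → Fin n → ℝ) (i : ι) : 0 < pm β R x h i := by
  unfold pm
  rw [setIntegral_pos_iff_support_of_nonneg_ae
    (Filter.Eventually.of_forall (fun y => rho_pos.le)) (integrableOn_ball (rho_cont _ _ _ _))]
  refine lt_of_lt_of_le (isOpen_ball.measure_pos (gam n) ⟨0, mem_ball_self hR⟩) (measure_mono ?_)
  intro y hy
  exact ⟨rho_pos.ne', ball_subset_closedBall hy⟩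

lemma ph_integral {β R : ℝ} (x h : ι → Fin n → ℝ) (i : ι)
    (F : (Fin n → ℝ) → ℝ) {A : Set (Fin n → ℝ)} (hA : MeasurableSet A) :
    ∫ y in A, F y * ph β R x h i y
      = (pm β R x h i)⁻¹ * ∫ y in A ∩ closedBall (0 : Fin n → ℝ) R,
          F y * rho β x h i y ∂(gam n) := by
  have e1 : ∀ y, F y * ph β R x h i y = (closedBall (0 : Fin n → ℝ) R).indicator
      (fun y => (pm β R x h i)⁻¹ * (G0 y * (F y * rho β x h i y))) y := by
    intro y
    unfold ph
    by_cases hy : y ∈ closedBall (0 : Fin n → ℝ) R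
    · rw [indicator_of_mem hy, indicator_of_mem hy]
      ring
    · rw [indicator_of_notMem hy, indicator_of_notMem hy, mul_zero]
  simp only [e1]
  rw [setIntegral_indicator measurableSet_closedBall, integral_const_mul,
    gam_setIntegral (hA.inter measurableSet_closedBall)]

lemma ph_dens {β R : ℝ} (hR : 0 < R) (x h : ι → Fin n → ℝ) (i : ι) :
    Dens R 1 (ph β R x h i) := by
  have hp := pm_pos (β := β) hR x h i
  have hcont : Continuous (fun y => rho β x h i y * G0 y / pm β R x h i) := by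
    have h1 := rho_cont β x h i
    have h2 : Continuous (G0 : (Fin n → ℝ) → ℝ) := G0_cont
    fun_prop
  refine ⟨hcont.measurable.indicator measurableSet_closedBall, ?_, ?_, ?_, ?_, ?_⟩
  · intro y
    apply indicator_nonneg
    intro y _
    have h1 : 0 < rho β x h i y := rho_pos
    have h2 := G0_pos y
    positivity
  · intro y hy
    by_contra hcon
    apply hy
    unfold ph
    rw [indicator_of_notMem]
    simpa using hcon
  · exact (hcont.continuousOn.integrableOn_compact (isCompact_closedBall _ _)).integrable_indicator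
      measurableSet_closedBall
  · have h1 := ph_integral (β := β) (R := R) x h i (fun _ => 1) MeasurableSet.univ
    simp only [one_mul, univ_inter, Measure.restrict_univ] at h1
    rw [h1]
    exact inv_mul_cancel₀ hp.ne'
  · intro y z
    unfold ph
    by_cases hy : y ∈ closedBall (0 : Fin n → ℝ) R
    · by_cases hz : z ∈ closedBall (0 : Fin n → ℝ) R
      · have hm : (1 / 2 : ℝ) • (y + z) ∈ closedBall (0 : Fin n → ℝ) R := by
          have := (convex_closedBall (0 : Fin n → ℝ) R) hy hz (a := 1/2) (b := 1/2)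
            (by norm_num) (by norm_num) (by norm_num)
          rwa [smul_add]
        rw [indicator_of_mem hy, indicator_of_mem hz, indicator_of_mem hm]
        have h1 := rho_lc (β := β) (x := x) (h := h) (i := i) y z
        have h2 := G0_lc y z
        have h3 := G0_pos y
        have h4 := G0_pos z
        calc rho β x h i y * G0 y / pm β R x h i * (rho β x h i z * G0 z / pm β R x h i) *
              Real.exp (1 / 4 * ∑ i, (y i - z i) ^ 2)
            = (rho β x h i y * rho β x h i z) *
              (G0 y * G0 z * Real.exp (1 / 4 * ∑ i, (y i - z i) ^ 2)) / pm β R x h i ^ 2 := by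
              ring
          _ ≤ (rho β x h i ((1 / 2 : ℝ) • (y + z)) ^ 2) *
              (G0 y * G0 z * Real.exp (1 / 4 * ∑ i, (y i - z i) ^ 2)) / pm β R x h i ^ 2 := by
              gcongr
          _ = _ := by rw [h2]; ring
      · rw [indicator_of_notMem hz, mul_zero, zero_mul]
        exact sq_nonneg _
    · rw [indicator_of_notMem hy, zero_mul, zero_mul]
      exact sq_nonneg _

lemma ph_bary {β R R₁ : ℝ} (hβ : 0 < β) (hR : 0 < R) {x : ι → Fin n → ℝ}
    (hx : ∀ i, ‖x i‖ ≤ R₁)
    {h : ι → Fin n → ℝ} (hmin : ∀ h', Psi β R x h ≤ Psi β R x h') (i : ι) :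
    bary (ph β R x h i) = x i := by
  funext k
  have hp := pm_pos (β := β) hR x h i
  have hst := stationary hβ hx hmin i k
  have h1 := ph_integral (β := β) (R := R) x h i (fun y => y k) MeasurableSet.univ
  simp only [univ_inter, Measure.restrict_univ] at h1
  unfold bary
  rw [h1]
  have hrc := rho_cont β x h i
  have e : ∀ y : Fin n → ℝ, rho β x h i y * (y k - x i k)
      = y k * rho β x h i y - x i k * rho β x h i y := fun y => by ring
  simp only [e] at hst
  rw [integral_sub (integrableOn_ball (by fun_prop)) (integrableOn_ball (by fun_prop)),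
    integral_const_mul] at hst
  have h2 : ∫ y in closedBall (0 : Fin n → ℝ) R, y k * rho β x h i y ∂(gam n)
      = x i k * pm β R x h i := by
    unfold pm; linarith
  rw [h2]
  field_simp

/-- The set `K - 4K - 4K`. -/
def S9 (K : Set (Fin n → ℝ)) : Set (Fin n → ℝ) :=
  (fun q : (Fin n → ℝ) × (Fin n → ℝ) × (Fin n → ℝ) => q.1 - (4:ℝ) • (q.2.1 + q.2.2)) ''
    (K ×ˢ (K ×ˢ K))

lemma S9_compact {K : Set (Fin n → ℝ)} (hK : IsCompact K) : IsCompact (S9 K) :=
  (hK.prod (hK.prod hK)).image (by fun_prop)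

lemma exists_pos_le {d : ι → ℝ} (hd : ∀ i, 0 < d i) : ∃ δ > 0, ∀ i, δ ≤ d i := by
  rcases isEmpty_or_nonempty ι with hι | hι
  · exact ⟨1, one_pos, fun i => hι.elim i⟩
  · obtain ⟨i₀, hi₀⟩ := Finite.exists_min d
    exact ⟨d i₀, hd i₀, hi₀⟩

lemma union_bound (hn : 0 < n) {K : Set (Fin n → ℝ)} (hK : IsCompact K)
    (hKγ : (99 / 100 : ℝ) ≤ (gam n).real K) {β R R₁ : ℝ} (hβ : 0 < β) (hR : 0 < R)
    {x : ι → Fin n → ℝ} (hx : ∀ i, ‖x i‖ ≤ R₁) (hxS : ∀ i, x i ∉ S9 K)
    {h : ι → Fin n → ℝ} (hmin : ∀ h', Psi β R x h ≤ Psi β R x h') :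
    (98 / 100) * ∑ i, pm β R x h i ≤ 1 / 100 := by
  have hKne : K.Nonempty := by
    by_contra hcon
    rw [not_nonempty_iff_eq_empty] at hcon
    rw [hcon] at hKγ
    simp at hKγ
    linarith
  have hS9c := S9_compact hK
  have hS9ne : (S9 K).Nonempty := by
    obtain ⟨y, hy⟩ := hKne
    exact ⟨_, ⟨(y, y, y), ⟨hy, hy, hy⟩, rfl⟩⟩
  obtain ⟨δ, hδ, hδi⟩ := exists_pos_le (d := fun i => infDist (x i) (S9 K)) (fun i =>
    (hS9c.isClosed.notMem_iff_infDist_pos hS9ne).mp (hxS i))
  set ε : ℝ := δ / 10 with hε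
  have hε0 : 0 < ε := by positivity
  obtain ⟨f, hf0, hf1, hfK, hfout, ⟨Lf, hfL⟩, T, hT0, hT⟩ := exists_f hK hε0
  set G : Set (Fin n → ℝ) := (fun q : (Fin n → ℝ) × (Fin n → ℝ) => (4:ℝ) • (q.1 + q.2)) ''
    (cthickening ε K ×ˢ cthickening ε K) with hG
  have hGne : G.Nonempty := by
    obtain ⟨y, hy⟩ := hKne
    have : y ∈ cthickening ε K := self_subset_cthickening K hy
    exact ⟨_, ⟨(y, y), ⟨this, this⟩, rfl⟩⟩
  set g : (Fin n → ℝ) → ℝ := fun w => max 0 (1 - (1 / ε) * infDist w G) with hg
  have hgL : LipschitzWith (Real.toNNReal (1 / ε)) g := by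
    apply LipschitzWith.of_dist_le_mul
    intro w w'
    rw [Real.coe_toNNReal _ (by positivity), Real.dist_eq]
    have h1 := (lipschitz_infDist_pt G).dist_le_mul w w'
    rw [Real.dist_eq, NNReal.coe_one, one_mul] at h1
    simp only [hg]
    calc |max 0 (1 - (1 / ε) * infDist w G) - max 0 (1 - (1 / ε) * infDist w' G)|
        ≤ |(1 - (1 / ε) * infDist w G) - (1 - (1 / ε) * infDist w' G)| := by
          rw [max_comm 0, max_comm 0]
          exact abs_max_sub_max_le_abs _ _ _
      _ = (1 / ε) * |infDist w G - infDist w' G| := by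
          have : (1 - (1 / ε) * infDist w G) - (1 - (1 / ε) * infDist w' G)
            = -((1 / ε) * (infDist w G - infDist w' G)) := by ring
          rw [this, abs_neg, abs_mul, abs_of_pos (by positivity : 0 < 1 / ε)]
      _ ≤ (1 / ε) * dist w w' := by gcongr
  have hg0 : ∀ w, 0 ≤ g w := fun w => le_max_left _ _
  have hg1 : ∀ w, g w ≤ 1 := by
    intro w
    apply max_le zero_le_one
    have : 0 ≤ (1 / ε) * infDist w G := by
      have := infDist_nonneg (x := w) (s := G)
      positivity
    linarith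
  have hfg : ∀ z z', f z + f z' - 1 ≤ g ((4 : ℝ) • (z + z')) := by
    intro z z'
    by_cases hz : z ∈ thickening ε K
    · by_cases hz' : z' ∈ thickening ε K
      · have hmem : (4 : ℝ) • (z + z') ∈ G :=
          ⟨(z, z'), ⟨thickening_subset_cthickening _ _ hz,
            thickening_subset_cthickening _ _ hz'⟩, rfl⟩
        have : g ((4 : ℝ) • (z + z')) = 1 := by
          simp only [hg]
          rw [infDist_zero_of_mem hmem]; simp
        rw [this]
        have := hf1 z
        have := hf1 z'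
        linarith
      · rw [hfout z' hz']
        have := hf1 z
        have := hg0 ((4 : ℝ) • (z + z'))
        linarith
    · rw [hfout z hz]
      have := hf1 z'
      have := hg0 ((4 : ℝ) • (z + z'))
      linarith
  have hgK : ∀ i, ∀ y ∈ K, g (y - x i) = 0 := by
    intro i y hy
    simp only [hg]
    apply max_eq_left
    have hdist : ε ≤ infDist (y - x i) G := by
      by_contra hcon
      push Not at hcon
      obtain ⟨w, ⟨⟨u, u'⟩, ⟨hu, hu'⟩, rfl⟩, hw⟩ := (infDist_lt_iff hGne).mp hcon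
      simp only at hw hu hu'
      rw [hK.cthickening_eq_biUnion_closedBall hε0.le] at hu hu'
      simp only [mem_iUnion, mem_closedBall, exists_prop] at hu hu'
      obtain ⟨z, hz, huz⟩ := hu
      obtain ⟨z', hz', huz'⟩ := hu'
      have hmem : y - (4:ℝ) • (z + z') ∈ S9 K := ⟨(y, z, z'), ⟨hy, hz, hz'⟩, rfl⟩
      have h1 : infDist (x i) (S9 K) ≤ dist (x i) (y - (4:ℝ) • (z + z')) :=
        infDist_le_dist_of_mem hmem
      have h2 : dist (x i) (y - (4:ℝ) • (z + z')) < 10 * ε := by
        rw [dist_eq_norm] at hw huz huz' ⊢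
        have e : x i - (y - (4:ℝ) • (z + z')) = -((y - x i) - (4:ℝ) • (u + u'))
            - ((4:ℝ) • (u - z) + (4:ℝ) • (u' - z')) := by
          simp only [smul_add, smul_sub]
          abel
        rw [e]
        calc ‖-((y - x i) - (4:ℝ) • (u + u')) - ((4:ℝ) • (u - z) + (4:ℝ) • (u' - z'))‖
            ≤ ‖-((y - x i) - (4:ℝ) • (u + u'))‖ + ‖(4:ℝ) • (u - z) + (4:ℝ) • (u' - z')‖ :=
              norm_sub_le _ _
          _ ≤ ‖-((y - x i) - (4:ℝ) • (u + u'))‖ + (‖(4:ℝ) • (u - z)‖ + ‖(4:ℝ) • (u' - z')‖) := by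
              gcongr; exact norm_add_le _ _
          _ = ‖(y - x i) - (4:ℝ) • (u + u')‖ + (4 * ‖u - z‖ + 4 * ‖u' - z'‖) := by
              rw [norm_neg, norm_smul, norm_smul]; norm_num
          _ < 10 * ε := by linarith
      have h3 := hδi i
      rw [hε] at h2
      linarith
    have : 1 ≤ (1 / ε) * infDist (y - x i) G := by
      rw [one_div, inv_mul_eq_div, le_div_iff₀ hε0]
      linarith
    linarith
  have hC : ∀ w, |f w| ≤ 1 := fun w => by
    rw [abs_of_nonneg (hf0 w)]; exact hf1 w
  have hfc := hfL.continuous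
  have hgc := hgL.continuous
  have hfint : (99 / 100 : ℝ) ≤ ∫ y, f y ∂(gam n) := by
    refine hKγ.trans ?_
    have hKm : MeasurableSet K := hK.measurableSet
    have e : (gam n).real K = ∫ y, K.indicator (fun _ => (1:ℝ)) y ∂(gam n) := by
      rw [integral_indicator hKm]; simp
    rw [e]
    apply integral_mono
    · exact (integrable_const (1:ℝ)).indicator hKm
    · exact Integrable.of_bound hfc.aestronglyMeasurable 1 (Filter.Eventually.of_forall hC)
    · intro y
      simp only [indicator]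
      split_ifs with hy
      · rw [hfK y hy]
      · exact hf0 y
  have hKm : MeasurableSet K := hK.measurableSet
  -- each piece
  have hpiece : ∀ i, (98 / 100) * pm β R x h i
      ≤ ∫ y in Kᶜ ∩ closedBall (0 : Fin n → ℝ) R, rho β x h i y ∂(gam n) := by
    intro i
    have hp := pm_pos (β := β) hR x h i
    have hD := ph_dens (β := β) hR x h i
    have hkey := key hn hfL hgL hC hT0 hT hfg hD
    rw [ph_bary hβ hR hx hmin i] at hkey
    have h1 : ∫ y, g (y - x i) * ph β R x h i y
        = (∫ y in K, g (y - x i) * ph β R x h i y)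
          + ∫ y in Kᶜ, g (y - x i) * ph β R x h i y :=
      (integral_add_compl hKm (hD.integrable_mul_cont (by fun_prop))).symm
    have h2 : ∫ y in K, g (y - x i) * ph β R x h i y = 0 := by
      rw [setIntegral_congr_fun hKm (g := fun _ => (0:ℝ))]
      · simp
      · intro y hy
        simp only [hgK i y hy, zero_mul]
    have h3 : ∫ y in Kᶜ, g (y - x i) * ph β R x h i y ≤ ∫ y in Kᶜ, 1 * ph β R x h i y := by
      apply setIntegral_mono
      · exact (hD.integrable_mul_cont (by fun_prop)).integrableOn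
      · exact (hD.integrable_mul_cont (by fun_prop)).integrableOn
      · intro y
        simp only
        have := hD.nn y
        have := hg1 (y - x i)
        gcongr
    rw [ph_integral x h i (fun _ => 1) hKm.compl] at h3
    simp only [one_mul] at h3
    have h4 : (98 / 100 : ℝ) ≤ (pm β R x h i)⁻¹ *
        ∫ y in Kᶜ ∩ closedBall (0 : Fin n → ℝ) R, rho β x h i y ∂(gam n) := by
      linarith
    rw [inv_mul_eq_div, le_div_iff₀ hp] at h4
    exact h4
  rw [Finset.mul_sum]
  refine (Finset.sum_le_sum (fun i _ => hpiece i)).trans ?_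
  have hrc : ∀ i, Continuous (rho β x h i) := fun i => rho_cont β x h i
  rw [← integral_finsetSum _ (fun i _ =>
    (integrableOn_ball (R := R) (hrc i)).mono_set inter_subset_right)]
  calc ∫ y in Kᶜ ∩ closedBall (0 : Fin n → ℝ) R, ∑ i, rho β x h i y ∂(gam n)
      ≤ ∫ _y in Kᶜ ∩ closedBall (0 : Fin n → ℝ) R, (1:ℝ) ∂(gam n) := by
        apply setIntegral_mono
        · exact (integrableOn_ball (R := R) (by fun_prop)).mono_set inter_subset_right
        · exact (integrable_const _)
        · intro y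
          exact sum_rho_le_one
    _ = (gam n).real (Kᶜ ∩ closedBall (0 : Fin n → ℝ) R) := by simp
    _ ≤ (gam n).real Kᶜ := measureReal_mono inter_subset_left
    _ = 1 - (gam n).real K := by rw [probReal_compl_eq_one_sub hKm]
    _ ≤ 1 / 100 := by linarith

end Pool.Agent.Talagrand
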