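import Pool.Agent.Talagrand.Key

/-!
# Test functions adapted to a compact set
-/

set_option autoImplicit false

open MeasureTheory ProbabilityTheory Set Metric
open scoped ENNReal NNReal Manifold ContDiff

namespace Pool.Agent.Talagrand

variable {n : ℕ}

lemma sum_single (h : Fin n → ℝ) : h = ∑ k, h k • (Pi.single k (1:ℝ) : Fin n → ℝ) := by
  funext i
  simp [Finset.sum_apply, Pi.single_apply]

lemma lip_gen {E F : Type*} [NormedAddCommGroup E] [NormedSpace ℝ E] [NormedAddCommGroup F]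
    [NormedSpace ℝ F] {g : E → F} (hg : ContDiff ℝ 1 g) (hs : HasCompactSupport g) :
    ∃ M, LipschitzWith M g :=
  hg.lipschitzWith_of_hasCompactSupport hs one_ne_zero

lemma lip_gen2 {E : Type*} [NormedAddCommGroup E] [NormedSpace ℝ E] {f : E → ℝ}
    (hf : ContDiff ℝ 3 f) (hs : HasCompactSupport f) :
    ∃ M, LipschitzWith M (fderiv ℝ (fderiv ℝ f)) := by
  have hf1 : ContDiff ℝ 2 (fderiv ℝ f) := hf.fderiv_right (by norm_num)
  have hf2 : ContDiff ℝ 1 (fderiv ℝ (fderiv ℝ f)) := hf1.fderiv_right (by norm_num)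
  have hs1 : HasCompactSupport (fderiv ℝ f) := hs.fderiv (𝕜 := ℝ)
  have hs2 : HasCompactSupport (fderiv ℝ (fderiv ℝ f)) := hs1.fderiv (𝕜 := ℝ)
  exact lip_gen hf2 hs2

/-- Second order Taylor expansion along a segment. -/
lemma taylor_two {E : Type*} [NormedAddCommGroup E] [NormedSpace ℝ E] {f : E → ℝ}
    (hf : ContDiff ℝ 3 f) {M : ℝ≥0} (hM : LipschitzWith M (fderiv ℝ (fderiv ℝ f))) (p h : E) :
    |f (p + h) - f p - fderiv ℝ f p h - (1 / 2) * fderiv ℝ (fderiv ℝ f) p h h|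
      ≤ M * ‖h‖ ^ 3 := by
  have hf1 : ContDiff ℝ 2 (fderiv ℝ f) := hf.fderiv_right (by norm_num)
  have hd0 : Differentiable ℝ f := hf.differentiable (by norm_num)
  have hd1 : Differentiable ℝ (fderiv ℝ f) := hf1.differentiable (by norm_num)
  generalize hg1 : fderiv ℝ f = f' at *
  generalize hg2 : fderiv ℝ f' = f'' at *
  have hline : ∀ t : ℝ, HasDerivAt (fun t : ℝ => p + t • h) h t := by
    intro t
    have := ((hasDerivAt_id t).smul_const h).const_add p
    simpa using this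
  have hχd : ∀ t : ℝ, HasDerivAt (fun t => f (p + t • h) - f p - t * f' p h
    - (1 / 2) * t ^ 2 * f'' p h h) (f' (p + t • h) h - f' p h - t * f'' p h h) t := by
    intro t
    have h1 : HasDerivAt (fun t : ℝ => f (p + t • h)) (f' (p + t • h) h) t := by
      have h0 : HasFDerivAt f (f' (p + t • h)) (p + t • h) := by
        rw [← hg1]; exact (hd0 _).hasFDerivAt
      exact h0.comp_hasDerivAt t (hline t)
    have h2 : HasDerivAt (fun t : ℝ => t * f' p h) (f' p h) t := by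
      simpa using (hasDerivAt_id t).mul_const (f' p h)
    have h3 : HasDerivAt (fun t : ℝ => (1 / 2) * t ^ 2 * f'' p h h) (t * f'' p h h) t := by
      have := (((hasDerivAt_id t).pow 2).const_mul (1/2 : ℝ)).mul_const (f'' p h h)
      refine this.congr_deriv ?_
      simp
    exact ((h1.sub_const (f p)).sub h2).sub h3
  have hψd : ∀ t : ℝ, HasDerivAt (fun t => f' (p + t • h) h - f' p h - t * f'' p h h)
      (f'' (p + t • h) h h - f'' p h h) t := by
    intro t
    have h1 : HasDerivAt (fun t : ℝ => f' (p + t • h)) (f'' (p + t • h) h) t := by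
      have h0 : HasFDerivAt f' (f'' (p + t • h)) (p + t • h) := by
        rw [← hg2]; exact (hd1 _).hasFDerivAt
      exact h0.comp_hasDerivAt t (hline t)
    have h1' : HasDerivAt (fun t : ℝ => f' (p + t • h) h) (f'' (p + t • h) h h) t := by
      have := h1.clm_apply (hasDerivAt_const t h)
      simpa using this
    have h2 : HasDerivAt (fun t : ℝ => t * f'' p h h) (f'' p h h) t := by
      simpa using (hasDerivAt_id t).mul_const (f'' p h h)
    exact (h1'.sub_const _).sub h2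
  have hb2 : ∀ t ∈ Icc (0:ℝ) 1, ‖f'' (p + t • h) h h - f'' p h h‖ ≤ M * ‖h‖ ^ 3 := by
    intro t ht
    have h1 := hM.dist_le_mul (p + t • h) p
    rw [dist_eq_norm, dist_eq_norm, add_sub_cancel_left, norm_smul, Real.norm_eq_abs,
      abs_of_nonneg ht.1] at h1
    have h2 : f'' (p + t • h) h h - f'' p h h = (f'' (p + t • h) - f'' p) h h := by simp
    rw [h2]
    calc ‖(f'' (p + t • h) - f'' p) h h‖
        ≤ ‖f'' (p + t • h) - f'' p‖ * ‖h‖ * ‖h‖ :=
          ContinuousLinearMap.le_opNorm₂ _ _ _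
      _ ≤ (M * (t * ‖h‖)) * ‖h‖ * ‖h‖ := by gcongr
      _ ≤ (M * (1 * ‖h‖)) * ‖h‖ * ‖h‖ := by
          have := ht.2
          gcongr
      _ = _ := by ring
  have hb1 : ∀ t ∈ Icc (0:ℝ) 1, ‖f' (p + t • h) h - f' p h - t * f'' p h h‖
      ≤ M * ‖h‖ ^ 3 := by
    intro t ht
    have h1 := norm_image_sub_le_of_norm_deriv_le_segment'
      (f := fun t => f' (p + t • h) h - f' p h - t * f'' p h h) (a := 0) (b := t)
      (C := M * ‖h‖ ^ 3) (fun x _ => (hψd x).hasDerivWithinAt)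
      (fun x hx => hb2 x ⟨hx.1, (hx.2.le).trans ht.2⟩) t ⟨ht.1, le_rfl⟩
    simp only [zero_smul, add_zero, sub_self, zero_mul, sub_zero] at h1
    refine h1.trans ?_
    have : (0:ℝ) ≤ M * ‖h‖ ^ 3 := by positivity
    nlinarith [ht.2]
  have h1 := norm_image_sub_le_of_norm_deriv_le_segment'
    (f := fun t => f (p + t • h) - f p - t * f' p h - (1 / 2) * t ^ 2 * f'' p h h)
    (a := 0) (b := 1)
    (C := M * ‖h‖ ^ 3) (fun x _ => (hχd x).hasDerivWithinAt)
    (fun x hx => hb1 x ⟨hx.1, hx.2.le⟩) 1 ⟨zero_le_one, le_rfl⟩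
  simp only [zero_smul, add_zero, sub_self, zero_mul, sub_zero, one_smul, one_mul, one_pow,
    mul_one, ne_eq, OfNat.ofNat_ne_zero, not_false_eq_true, zero_pow, mul_zero] at h1
  exact h1

lemma lin_coord (L : (Fin n → ℝ) →L[ℝ] ℝ) (h : Fin n → ℝ) :
    ∑ k, L (Pi.single k 1) * h k = L h := by
  conv_rhs => rw [sum_single h]
  rw [map_sum]
  refine Finset.sum_congr rfl (fun k _ => ?_)
  rw [map_smul, smul_eq_mul, mul_comm]

lemma bilin_coord (B : (Fin n → ℝ) →L[ℝ] (Fin n → ℝ) →L[ℝ] ℝ) (h : Fin n → ℝ) :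
    ∑ k, ∑ l, B (Pi.single k 1) (Pi.single l 1) * (h k * h l) = B h h := by
  have h1 : ∀ k, ∑ l, B (Pi.single k 1) (Pi.single l 1) * (h k * h l)
      = h k * B (Pi.single k 1) h := by
    intro k
    rw [← lin_coord (B (Pi.single k 1)) h, Finset.mul_sum]
    exact Finset.sum_congr rfl (fun l _ => by ring)
  simp only [h1]
  have h2 : B h = ∑ k, h k • B (Pi.single k 1) := by
    conv_lhs => rw [sum_single h]
    rw [map_sum]
    refine Finset.sum_congr rfl (fun k _ => ?_)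
    rw [map_smul]
  rw [h2]
  simp only [sum_apply, smul_apply, smul_eq_mul]

/-- Uniform Taylor expansion for compactly supported smooth functions. -/
lemma tay_of_contDiff {f : (Fin n → ℝ) → ℝ} (hf : ContDiff ℝ 3 f) (hs : HasCompactSupport f) :
    ∃ T, 0 ≤ T ∧ Tay f T := by
  obtain ⟨M, hM⟩ := lip_gen2 hf hs
  refine ⟨M, M.2, fun p k => fderiv ℝ f p (Pi.single k 1),
    fun p k l => (1 / 2) * fderiv ℝ (fderiv ℝ f) p (Pi.single k 1) (Pi.single l 1), ?_⟩
  intro p h
  have h1 := taylor_two hf hM p h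
  have e1 := lin_coord (fderiv ℝ f p) h
  have e2 := bilin_coord (fderiv ℝ (fderiv ℝ f) p) h
  have e3 : ∑ k, ∑ l, (1 / 2) * fderiv ℝ (fderiv ℝ f) p (Pi.single k 1) (Pi.single l 1)
      * (h k * h l) = (1 / 2) * ∑ k, ∑ l, fderiv ℝ (fderiv ℝ f) p (Pi.single k 1)
        (Pi.single l 1) * (h k * h l) := by
    rw [Finset.mul_sum]
    refine Finset.sum_congr rfl (fun k _ => ?_)
    rw [Finset.mul_sum]
    exact Finset.sum_congr rfl (fun l _ => by ring)
  rw [e1, e3, e2]
  exact h1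

/-- The test function `f`. -/
lemma exists_f {K : Set (Fin n → ℝ)} (hK : IsCompact K) {ε : ℝ} (hε : 0 < ε) :
    ∃ f : (Fin n → ℝ) → ℝ, (∀ x, 0 ≤ f x) ∧ (∀ x, f x ≤ 1) ∧ (∀ x ∈ K, f x = 1) ∧
      (∀ x, x ∉ thickening ε K → f x = 0) ∧ (∃ L, LipschitzWith L f) ∧
      ∃ T, 0 ≤ T ∧ Tay f T := by
  obtain ⟨f, hf, hr, h0, h1⟩ := exists_contMDiff_zero_iff_one_iff_of_isClosed
    (I := 𝓘(ℝ, Fin n → ℝ)) (n := (⊤ : ℕ∞)) (s := (thickening ε K)ᶜ) (t := K) isOpen_thickening.isClosed_compl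
    hK.isClosed (by
      rw [Set.disjoint_left]
      intro x hx hxK
      exact hx (self_subset_thickening hε K hxK))
  have hfc : ContDiff ℝ ((⊤ : ℕ∞) : WithTop ℕ∞) f := hf.contDiff
  have hsupp : HasCompactSupport f := by
    apply HasCompactSupport.of_support_subset_isCompact (hK.cthickening (r := ε))
    intro x hx
    by_contra hcon
    apply hx
    rw [← h0]
    intro hx'
    exact hcon (thickening_subset_cthickening _ _ hx')
  refine ⟨f, fun x => (hr ⟨x, rfl⟩).1, fun x => (hr ⟨x, rfl⟩).2, fun x hx => (h1 x).mp hx,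
    fun x hx => (h0 x).mp hx, ?_, ?_⟩
  · exact lip_gen (hfc.of_le (WithTop.coe_le_coe.mpr le_top)) hsupp
  · exact tay_of_contDiff (hfc.of_le (WithTop.coe_le_coe.mpr le_top)) hsupp

end Pool.Agent.Talagrand
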