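import Pool.Agent.Talagrand.Assembly

/-!
# The finite dimensional theorem
-/

set_option autoImplicit false

open MeasureTheory ProbabilityTheory Set Metric
open scoped ENNReal NNReal

namespace Pool.Agent.Talagrand

variable {n : ℕ} {ι : Type} [Fintype ι]

lemma ZZ_convexOn {β : ℝ} (x h : ι → Fin n → ℝ) : ConvexOn ℝ univ (ZZ β x h) := by
  unfold ZZ
  have h1 : ∀ i : ι, ConvexOn ℝ univ (fun y : Fin n → ℝ => Real.exp (β * aff x h i y)) := by
    intro i
    refine ⟨convex_univ, ?_⟩
    intro y _ z _ a b ha hb hab
    have e : β * aff x h i (a • y + b • z) = a • (β * aff x h i y) + b • (β * aff x h i z) := by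
      unfold aff
      have e1 : ∑ k, h i k * ((a • y + b • z) k - x i k)
          = a * ∑ k, h i k * (y k - x i k) + b * ∑ k, h i k * (z k - x i k) := by
        rw [Finset.mul_sum, Finset.mul_sum, ← Finset.sum_add_distrib]
        refine Finset.sum_congr rfl (fun k _ => ?_)
        simp only [Pi.add_apply, Pi.smul_apply, smul_eq_mul]
        have : x i k = (a + b) * x i k := by rw [hab, one_mul]
        calc h i k * (a * y k + b * z k - x i k)
            = h i k * (a * y k + b * z k - (a + b) * x i k) := by rw [hab, one_mul]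
          _ = _ := by ring
      rw [e1]
      simp only [smul_eq_mul]
      calc β * (1 + (a * ∑ k, h i k * (y k - x i k) + b * ∑ k, h i k * (z k - x i k)))
          = β * ((a + b) + (a * ∑ k, h i k * (y k - x i k) + b * ∑ k, h i k * (z k - x i k))) := by
            rw [hab]
        _ = _ := by ring
    simp only
    rw [e]
    exact convexOn_exp.2 (mem_univ _) (mem_univ _) ha hb hab
  have h2 : ConvexOn ℝ univ (fun y : Fin n → ℝ => ∑ i, Real.exp (β * aff x h i y)) := by
    have := Finset.sum_induction (s := (Finset.univ : Finset ι))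
      (fun i => (fun y : Fin n → ℝ => Real.exp (β * aff x h i y)))
      (fun F => ConvexOn ℝ univ F) (fun a b ha hb => ha.add hb)
      (convexOn_const 0 convex_univ) (fun i _ => h1 i)
    convert this using 1
    funext y
    simp
  exact (convexOn_const 1 convex_univ).add h2

/-- **Finite dimensional theorem.** -/
theorem finite_dim (hn : 0 < n) {K : Set (Fin n → ℝ)} (hK : IsCompact K)
    (hKγ : (99 / 100 : ℝ) ≤ (gam n).real K) :
    ∃ C : Set (Fin n → ℝ), IsCompact C ∧ Convex ℝ C ∧ C ⊆ S9 K ∧ (1 / 100 : ℝ) ≤ (gam n).real C := by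
  -- a large ball
  obtain ⟨R₁, hR₁, hball⟩ : ∃ R₁ : ℝ, 0 ≤ R₁ ∧
      (9999 / 10000 : ℝ) ≤ (gam n).real (closedBall (0 : Fin n → ℝ) R₁) := by
    have htend : Filter.Tendsto (fun N : ℕ => (gam n) (closedBall (0 : Fin n → ℝ) (N : ℝ)))
        Filter.atTop (nhds ((gam n) (⋃ N : ℕ, closedBall (0 : Fin n → ℝ) (N : ℝ)))) := by
      apply tendsto_measure_iUnion_atTop
      intro N M hNM
      exact closedBall_subset_closedBall (by exact_mod_cast hNM)
    rw [iUnion_closedBall_nat, measure_univ] at htend
    have h2 := (ENNReal.tendsto_toReal (by norm_num)).comp htend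
    have h3 := h2.eventually (lt_mem_nhds (show (9999 / 10000 : ℝ) < (1 : ℝ≥0∞).toReal by norm_num))
    obtain ⟨N, hN⟩ := h3.exists
    exact ⟨N, by positivity, le_of_lt hN⟩
  set R : ℝ := R₁ + 1 with hR
  have hRR : R₁ < R := by linarith
  have hR0 : 0 < R := by linarith
  obtain ⟨c, hc0, hc⟩ := exists_coercive n hR₁ hRR
  set B : Set (Fin n → ℝ) := closedBall (0 : Fin n → ℝ) R₁ \ S9 K with hB
  have hn' : (0:ℝ) < n := by exact_mod_cast hn
  set r : ℝ := (2 / 1000) * c / n with hr
  have hr0 : 0 < r := by positivity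
  -- a finite net
  obtain ⟨t, htB, htfin, htcov⟩ : ∃ t ⊆ B, t.Finite ∧ B ⊆ ⋃ y ∈ t, ball y r := by
    have htb : TotallyBounded B :=
      (isCompact_closedBall (0 : Fin n → ℝ) R₁).totallyBounded.subset sdiff_subset
    exact finite_approx_of_totallyBounded htb r hr0
  have := htfin.fintype
  set x : t → Fin n → ℝ := fun i => i.1 with hx
  have hxR : ∀ i, ‖x i‖ ≤ R₁ := by
    intro i
    have := (htB i.2).1
    simpa using this
  have hxS : ∀ i, x i ∉ S9 K := fun i => (htB i.2).2
  -- choice of β
  obtain ⟨β, hβ, hβlog⟩ : ∃ β : ℝ, 0 < β ∧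
      (1 / β) * Real.log (Fintype.card t + 1) ≤ 1 / 100 := by
    have hl : 0 ≤ Real.log ((Fintype.card t : ℝ) + 1) := Real.log_nonneg (by
      have : (0:ℝ) ≤ Fintype.card t := by positivity
      linarith)
    refine ⟨100 * Real.log (Fintype.card t + 1) + 1, by positivity, ?_⟩
    rw [one_div, inv_mul_eq_div, div_le_iff₀ (by positivity)]
    linarith
  obtain ⟨h, hmin⟩ := exists_minimiser hβ hR₁ hRR hxR
  by_cases hΨ : Psi β R x h ≤ 98 / 100
  · -- the convex set
    refine ⟨closedBall (0 : Fin n → ℝ) R₁ ∩ {y | ZZ β x h y ≤ Real.exp (β * (995 / 1000))},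
      ?_, ?_, ?_, ?_⟩
    · apply (isCompact_closedBall _ _).inter_right
      exact isClosed_le (ZZ_cont _ _ _) continuous_const
    · apply (convex_closedBall _ _).inter
      have := (ZZ_convexOn (β := β) x h).convex_le (Real.exp (β * (995 / 1000)))
      simpa using this
    · rintro y ⟨hy1, hy2⟩
      by_contra hyS
      have hyB : y ∈ B := ⟨hy1, hyS⟩
      have := htcov hyB
      simp only [mem_iUnion, exists_prop] at this
      obtain ⟨z, hz, hyz⟩ := this
      have h1 := exp_le_ZZ (β := β) (x := x) (h := h) (y := y) ⟨z, hz⟩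
      simp only [mem_ofPred_eq] at hy2
      have h2 := h1.trans hy2
      rw [Real.exp_le_exp] at h2
      have h3 : aff x h ⟨z, hz⟩ y ≤ 995 / 1000 := le_of_mul_le_mul_left h2 hβ
      have h4 : ‖y - x ⟨z, hz⟩‖ ≤ r := by
        have : dist y z < r := hyz
        rw [dist_eq_norm] at this
        exact this.le
      have h5 := lin_bound (h ⟨z, hz⟩) y (x ⟨z, hz⟩) h4
      have h6 := Psi_lower hβ hc hxR h ⟨z, hz⟩
      have h7 : ‖h ⟨z, hz⟩‖ ≤ 1 / c := by
        rw [le_div_iff₀ hc0]; linarith
      have h8 : (n:ℝ) * (‖h ⟨z, hz⟩‖ * r) ≤ 2 / 1000 := by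
        calc (n:ℝ) * (‖h ⟨z, hz⟩‖ * r) ≤ n * ((1 / c) * r) := by gcongr
          _ = 2 / 1000 := by rw [hr]; field_simp
      unfold aff at h3
      have h9 := (abs_le.mp h5).1
      linarith
    · -- Markov
      set C := closedBall (0 : Fin n → ℝ) R₁ ∩ {y | ZZ β x h y ≤ Real.exp (β * (995 / 1000))}
        with hC
      set D := closedBall (0 : Fin n → ℝ) R ∩ {y | (995 / 1000 : ℝ) ≤ sm β x h y} with hD
      have hDm : MeasurableSet D := measurableSet_closedBall.inter
        (isClosed_le continuous_const (sm_cont _ _ _)).measurableSet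
      have hcov : closedBall (0 : Fin n → ℝ) R₁ ⊆ C ∪ D := by
        intro y hy
        by_cases hyC : ZZ β x h y ≤ Real.exp (β * (995 / 1000))
        · exact Or.inl ⟨hy, hyC⟩
        · right
          refine ⟨closedBall_subset_closedBall hRR.le hy, ?_⟩
          push Not at hyC
          simp only [mem_ofPred_eq]
          unfold sm
          have : β * (995 / 1000) ≤ Real.log (ZZ β x h y) := by
            rw [Real.le_log_iff_exp_le ZZ_pos]
            exact hyC.le
          rw [one_div, inv_mul_eq_div, le_div_iff₀ hβ]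
          linarith
      have hDle : (995 / 1000 : ℝ) * (gam n).real D ≤ 98 / 100 := by
        refine le_trans ?_ hΨ
        unfold Psi
        calc (995 / 1000 : ℝ) * (gam n).real D = ∫ _y in D, (995 / 1000 : ℝ) ∂(gam n) := by
              simp [mul_comm]
          _ ≤ ∫ y in D, sm β x h y ∂(gam n) := by
              apply setIntegral_mono_on
              · exact integrable_const _
              · exact (integrableOn_ball (R := R) (sm_cont _ _ _)).mono_set inter_subset_left
              · exact hDm
              · intro y hy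
                exact hy.2
          _ ≤ ∫ y in closedBall (0 : Fin n → ℝ) R, sm β x h y ∂(gam n) := by
              apply setIntegral_mono_set (integrableOn_ball (sm_cont _ _ _))
              · exact Filter.Eventually.of_forall (fun y => sm_nonneg hβ)
              · exact (inter_subset_left).eventuallyLE
      have h1 : (gam n).real (closedBall (0 : Fin n → ℝ) R₁)
          ≤ (gam n).real C + (gam n).real D :=
        (measureReal_mono hcov).trans (measureReal_union_le _ _)
      linarith
  · -- contradiction
    exfalso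
    push Not at hΨ
    have h1 := mass_lower hβ hxR hmin
    have h2 := union_bound hn hK hKγ hβ hR0 hxR hxS hmin
    have h3 : ∑ i, pm β R x h i = ∑ i, ∫ y in closedBall (0 : Fin n → ℝ) R,
      rho β x h i y ∂(gam n) := rfl
    rw [h3] at h2
    linarith

end Pool.Agent.Talagrand
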