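import Mathlib

/-!
# Standard Gaussian measure on `Fin n → ℝ`: moments and semigroup property
-/

set_option autoImplicit false

open MeasureTheory ProbabilityTheory Set
open scoped ENNReal NNReal

namespace Pool.Agent.Talagrand

/-- The standard Gaussian measure on `Fin n → ℝ`. -/
noncomputable abbrev gam (n : ℕ) : Measure (Fin n → ℝ) := Measure.pi (fun _ => gaussianReal 0 1)

lemma one_dim_add {a b : ℝ} (ha : 0 ≤ a) (hb : 0 ≤ b) :
    ((gaussianReal 0 1).prod (gaussianReal 0 1)).map
      (fun p : ℝ × ℝ => Real.sqrt a * p.1 + Real.sqrt b * p.2)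
    = (gaussianReal 0 1).map (fun x => Real.sqrt (a + b) * x) := by
  have key : ∀ {c : ℝ}, 0 ≤ c → (gaussianReal 0 1).map (fun x => Real.sqrt c * x)
      = gaussianReal 0 c.toNNReal := by
    intro c hc
    have := gaussianReal_map_const_mul (μ := 0) (v := 1) (Real.sqrt c)
    rw [this]
    congr 1
    · simp
    · ext
      simp [Real.sq_sqrt hc, Real.coe_toNNReal c hc]
  rw [key (add_nonneg ha hb)]
  have h4 := gaussianReal_conv_gaussianReal (m₁ := 0) (m₂ := 0) (v₁ := a.toNNReal)
    (v₂ := b.toNNReal)
  rw [← Real.toNNReal_add ha hb, add_zero] at h4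
  rw [← h4, Measure.conv, ← key ha, ← key hb,
    Measure.map_prod_map _ _ (by fun_prop) (by fun_prop),
    Measure.map_map (by fun_prop) (by fun_prop)]
  rfl

lemma gam_map_add (n : ℕ) {a b : ℝ} (ha : 0 ≤ a) (hb : 0 ≤ b) :
    ((gam n).prod (gam n)).map
      (fun p : (Fin n → ℝ) × (Fin n → ℝ) => Real.sqrt a • p.1 + Real.sqrt b • p.2)
    = (gam n).map (fun x => Real.sqrt (a + b) • x) := by
  have hmp := measurePreserving_arrowProdEquivProdArrow ℝ ℝ (Fin n)
    (fun _ => gaussianReal 0 1) (fun _ => gaussianReal 0 1)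
  rw [← hmp.map_eq, Measure.map_map (by fun_prop) hmp.measurable]
  have e1 : ((fun p : (Fin n → ℝ) × (Fin n → ℝ) => Real.sqrt a • p.1 + Real.sqrt b • p.2) ∘
      (MeasurableEquiv.arrowProdEquivProdArrow ℝ ℝ (Fin n)))
      = fun x i => (fun p : ℝ × ℝ => Real.sqrt a * p.1 + Real.sqrt b * p.2) (x i) := by
    funext x i
    simp [MeasurableEquiv.arrowProdEquivProdArrow, Equiv.arrowProdEquivProdArrow]
  rw [e1]
  have h2 := Measure.pi_map_pi (μ := fun _ : Fin n => (gaussianReal 0 1).prod (gaussianReal 0 1))
    (f := fun _ (p : ℝ × ℝ) => Real.sqrt a * p.1 + Real.sqrt b * p.2)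
    (hμ := fun i => by
      have : IsProbabilityMeasure (Measure.map (fun p : ℝ × ℝ => Real.sqrt a * p.1
        + Real.sqrt b * p.2) ((gaussianReal 0 1).prod (gaussianReal 0 1))) :=
        Measure.isProbabilityMeasure_map (by fun_prop)
      infer_instance) (fun i => by fun_prop)
  rw [h2]
  have h3 := Measure.pi_map_pi (μ := fun _ : Fin n => (gaussianReal 0 1))
    (f := fun _ (p : ℝ) => Real.sqrt (a + b) * p)
    (hμ := fun i => by
      have : IsProbabilityMeasure (Measure.map (fun p : ℝ => Real.sqrt (a + b) * p)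
        (gaussianReal 0 1)) :=
        Measure.isProbabilityMeasure_map (by fun_prop)
      infer_instance) (fun i => by fun_prop)
  have e4 : (fun x : Fin n → ℝ => Real.sqrt (a + b) • x)
      = fun x i => (fun p : ℝ => Real.sqrt (a + b) * p) (x i) := by
    funext x i; simp
  rw [e4, h3]
  congr 1
  funext i
  exact one_dim_add ha hb

lemma gam_semigroup (n : ℕ) {a b : ℝ} (ha : 0 ≤ a) (hb : 0 ≤ b) {f : (Fin n → ℝ) → ℝ}
    (hf : Continuous f) {C : ℝ} (hC : ∀ x, |f x| ≤ C) (z : Fin n → ℝ) :
    ∫ y, ∫ u, f (z + Real.sqrt a • y + Real.sqrt b • u) ∂(gam n) ∂(gam n)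
      = ∫ y, f (z + Real.sqrt (a + b) • y) ∂(gam n) := by
  have hint : Integrable (fun p : (Fin n → ℝ) × (Fin n → ℝ) =>
      f (z + Real.sqrt a • p.1 + Real.sqrt b • p.2)) ((gam n).prod (gam n)) := by
    refine Integrable.of_bound (C := C) ?_ (Filter.Eventually.of_forall (fun p => ?_))
    · exact (by fun_prop : Continuous _).aestronglyMeasurable
    · exact hC _
  rw [← integral_prod _ hint]
  have h1 := integral_map (μ := (gam n).prod (gam n))
    (φ := fun p : (Fin n → ℝ) × (Fin n → ℝ) => Real.sqrt a • p.1 + Real.sqrt b • p.2)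
    (f := fun x => f (z + x)) (by fun_prop)
    ((by fun_prop : Continuous fun x => f (z + x)).aestronglyMeasurable)
  have h2 := integral_map (μ := gam n)
    (φ := fun x : Fin n → ℝ => Real.sqrt (a + b) • x)
    (f := fun x => f (z + x)) (by fun_prop)
    ((by fun_prop : Continuous fun x => f (z + x)).aestronglyMeasurable)
  rw [gam_map_add n ha hb, h2] at h1
  rw [h1]
  simp only [add_assoc]

lemma gam_integrable_comp (n : ℕ) (k : Fin n) {F : ℝ → ℝ}
    (hF : Integrable F (gaussianReal 0 1)) : Integrable (fun y : Fin n → ℝ => F (y k)) (gam n) := by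
  have hmp := measurePreserving_eval (fun _ : Fin n => gaussianReal 0 1) k
  exact hmp.integrable_comp_of_integrable hF

lemma gam_integral_comp (n : ℕ) (k : Fin n) {F : ℝ → ℝ} (hF : Continuous F) :
    ∫ y : Fin n → ℝ, F (y k) ∂(gam n) = ∫ x, F x ∂(gaussianReal 0 1) := by
  have hmp := measurePreserving_eval (fun _ : Fin n => gaussianReal 0 1) k
  rw [← hmp.map_eq, integral_map hmp.measurable.aemeasurable hF.aestronglyMeasurable]

lemma gaussian_integrable_pow (m : ℕ) : Integrable (fun x : ℝ => x ^ m) (gaussianReal 0 1) := by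
  have h := memLp_id_gaussianReal (μ := 0) (v := 1) (m : ℝ≥0)
  have h2 := h.integrable_norm_pow'
  refine Integrable.mono h2 (by fun_prop) (Filter.Eventually.of_forall (fun x => ?_))
  simp

lemma gam_coord (n : ℕ) (k : Fin n) : Integrable (fun y : Fin n → ℝ => y k) (gam n) ∧
    ∫ y : Fin n → ℝ, y k ∂(gam n) = 0 := by
  constructor
  · have := gam_integrable_comp n k (F := fun x => x) (by simpa using gaussian_integrable_pow 1)
    exact this
  · rw [gam_integral_comp n k (F := fun x => x) continuous_id]
    exact integral_id_gaussianReal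

lemma gaussian_sq : ∫ x : ℝ, x ^ 2 ∂(gaussianReal 0 1) = 1 := by
  have h := variance_fun_id_gaussianReal (μ := 0) (v := 1)
  rw [variance_eq_integral (by fun_prop)] at h
  simp only [integral_id_gaussianReal, sub_zero] at h
  simpa using h

lemma gam_mul (n : ℕ) (k l : Fin n) : Integrable (fun y : Fin n → ℝ => y k * y l) (gam n) ∧
    ∫ y : Fin n → ℝ, y k * y l ∂(gam n) = if k = l then 1 else 0 := by
  have hi : ∀ j : Fin n, Integrable (fun y : Fin n → ℝ => y j ^ 2) (gam n) := fun j =>
    gam_integrable_comp n j (gaussian_integrable_pow 2)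
  constructor
  · refine Integrable.mono ((hi k).add (hi l)) (by fun_prop)
      (Filter.Eventually.of_forall (fun y => ?_))
    simp only [Real.norm_eq_abs, Pi.add_apply]
    rw [abs_le, abs_of_nonneg (by positivity : 0 ≤ y k ^ 2 + y l ^ 2)]
    constructor <;> nlinarith [sq_nonneg (y k + y l), sq_nonneg (y k - y l)]
  · split_ifs with hkl
    · subst hkl
      have := gam_integral_comp n k (F := fun x => x ^ 2) (by fun_prop)
      simp only [← sq]
      rw [this, gaussian_sq]
    · have h1 := integral_fintype_prod_eq_prod (𝕜 := ℝ) (μ := fun _ : Fin n => gaussianReal 0 1)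
        (f := fun i x => if i = k ∨ i = l then x else 1)
      have e : ∀ y : Fin n → ℝ, (∏ i, (if i = k ∨ i = l then y i else 1)) = y k * y l := by
        intro y
        rw [Finset.prod_ite, Finset.prod_const_one, mul_one]
        have : (Finset.univ.filter (fun i : Fin n => i = k ∨ i = l)) = {k, l} := by
          ext i; simp
        rw [this, Finset.prod_pair hkl]
      simp only [e] at h1
      rw [h1]
      apply Finset.prod_eq_zero (Finset.mem_univ k)
      simp [integral_id_gaussianReal]

lemma gam_norm_pow (n m : ℕ) (hm : m ≠ 0) :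
    Integrable (fun y : Fin n → ℝ => ‖y‖ ^ m) (gam n) := by
  have h1 : Integrable (fun y : Fin n → ℝ => ∑ k, |y k| ^ m) (gam n) := by
    apply integrable_finsetSum
    intro k _
    have := (gam_integrable_comp n k (gaussian_integrable_pow m)).norm
    refine this.congr (Filter.Eventually.of_forall (fun y => ?_))
    simp
  refine Integrable.mono h1 (by fun_prop) (Filter.Eventually.of_forall (fun y => ?_))
  rw [Real.norm_of_nonneg (by positivity), Real.norm_of_nonneg
    (Finset.sum_nonneg (fun k _ => by positivity))]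
  by_cases hn : Nonempty (Fin n)
  · obtain ⟨k, hk⟩ : ∃ k, ‖y‖ = ‖y k‖ := by
      obtain ⟨k, -, hk⟩ := Finset.exists_max_image Finset.univ (fun k => ‖y k‖)
        Finset.univ_nonempty
      refine ⟨k, le_antisymm ?_ (norm_le_pi_norm y k)⟩
      exact (pi_norm_le_iff_of_nonneg (norm_nonneg _)).mpr (fun i => hk i (Finset.mem_univ i))
    rw [hk]
    exact Finset.single_le_sum (f := fun k => |y k| ^ m) (fun i _ => by positivity)
      (Finset.mem_univ k)
  · have : ‖y‖ = 0 := by
      rw [norm_eq_zero]
      funext k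
      exact absurd ⟨k⟩ hn
    rw [this, zero_pow hm]
    exact Finset.sum_nonneg (fun k _ => by positivity)

end Pool.Agent.Talagrand
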