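import Pool.Agent.Talagrand.Split
import Pool.Agent.Talagrand.Gauss

/-!
# The induction: `∫ g (x - bary φ) φ ≥ 2 ∫ f dγ - 1`
-/

set_option autoImplicit false

open MeasureTheory ProbabilityTheory Set
open scoped ENNReal NNReal

namespace Pool.Agent.Talagrand

variable {n : ℕ} {R κ : ℝ} {φ : (Fin n → ℝ) → ℝ}

/-- Second order Taylor expansion with uniform cubic remainder. -/
def Tay (f : (Fin n → ℝ) → ℝ) (T : ℝ) : Prop :=
  ∃ (f1 : (Fin n → ℝ) → Fin n → ℝ) (f2 : (Fin n → ℝ) → Fin n → Fin n → ℝ),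
    ∀ p h : Fin n → ℝ, |f (p + h) - f p - ∑ k, f1 p k * h k - ∑ k, ∑ l, f2 p k l * (h k * h l)|
      ≤ T * ‖h‖ ^ 3

/-- Gaussian average of `f` at scale `v`. -/
noncomputable def FF (f : (Fin n → ℝ) → ℝ) (v : ℝ) (z : Fin n → ℝ) : ℝ :=
  ∫ y, f (z + Real.sqrt v • y) ∂(gam n)

/-- Third absolute moment. -/
noncomputable def M3 (n : ℕ) : ℝ := ∫ y, ‖y‖ ^ 3 ∂(gam n)

lemma M3_nonneg (n : ℕ) : 0 ≤ M3 n := integral_nonneg (fun y => by positivity)

lemma taylor_compare {f : (Fin n → ℝ) → ℝ} {T : ℝ} (hT0 : 0 ≤ T) (hT : Tay f T)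
    (hf : Continuous f) {C : ℝ} (hC : ∀ x, |f x| ≤ C)
    {ι : Type} [Fintype ι] {p : ι → ℝ} {h : ι → Fin n → ℝ} {v r : ℝ} (hv : 0 ≤ v)
    (hp : ∀ j, 0 ≤ p j) (hp1 : ∑ j, p j = 1) (hm : Mom p h v r) (z : Fin n → ℝ) :
    (∫ u, f (z + Real.sqrt v • u) ∂(gam n))
      - T * (r ^ 3 + Real.sqrt v ^ 3 * M3 n) ≤ ∑ j, p j * f (z + h j) := by
  obtain ⟨f1, f2, hf12⟩ := hT
  set V := v * ∑ k, f2 z k k with hV
  -- discrete side
  have hd : f z + V - T * r ^ 3 ≤ ∑ j, p j * f (z + h j) := by
    have e1 : ∑ j, p j * (f z + ∑ k, f1 z k * h j k + ∑ k, ∑ l, f2 z k l * (h j k * h j l))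
        = f z + V := by
      have a1 : ∑ j, p j * ∑ k, f1 z k * h j k = 0 := by
        have : ∀ j, p j * ∑ k, f1 z k * h j k = ∑ k, f1 z k * (p j * h j k) := by
          intro j; rw [Finset.mul_sum]; exact Finset.sum_congr rfl (fun k _ => by ring)
        simp only [this]
        rw [Finset.sum_comm]
        simp only [← Finset.mul_sum, hm.first, mul_zero, Finset.sum_const_zero]
      have a2 : ∑ j, p j * ∑ k, ∑ l, f2 z k l * (h j k * h j l) = V := by
        have : ∀ j, p j * ∑ k, ∑ l, f2 z k l * (h j k * h j l)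
            = ∑ k, ∑ l, f2 z k l * (p j * (h j k * h j l)) := by
          intro j; rw [Finset.mul_sum]
          refine Finset.sum_congr rfl (fun k _ => ?_)
          rw [Finset.mul_sum]
          exact Finset.sum_congr rfl (fun l _ => by ring)
        simp only [this]
        rw [Finset.sum_comm]
        have : ∀ k, ∑ j, ∑ l, f2 z k l * (p j * (h j k * h j l)) = f2 z k k * v := by
          intro k
          rw [Finset.sum_comm]
          simp only [← Finset.mul_sum, hm.second]
          simp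
        simp only [this]
        rw [← Finset.sum_mul, hV, mul_comm]
      simp only [mul_add, Finset.sum_add_distrib]
      rw [a1, a2, ← Finset.sum_mul, hp1]
      ring
    have e2 : ∑ j, p j * (f z + ∑ k, f1 z k * h j k + ∑ k, ∑ l, f2 z k l * (h j k * h j l))
        - ∑ j, p j * (T * r ^ 3) ≤ ∑ j, p j * f (z + h j) := by
      rw [← Finset.sum_sub_distrib]
      apply Finset.sum_le_sum
      intro j _
      rw [← mul_sub]
      apply mul_le_mul_of_nonneg_left _ (hp j)
      have h1 := (abs_le.mp (hf12 z (h j))).1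
      have h2 : T * ‖h j‖ ^ 3 ≤ T * r ^ 3 := by
        have := hm.bound j
        gcongr
      linarith
    rw [e1, ← Finset.sum_mul, hp1, one_mul] at e2
    exact e2
  -- Gaussian side
  have hg : (∫ u, f (z + Real.sqrt v • u) ∂(gam n)) ≤ f z + V + T * (Real.sqrt v ^ 3 * M3 n) := by
    have hsq : Real.sqrt v * Real.sqrt v = v := Real.mul_self_sqrt hv
    have i1 : ∀ k, Integrable (fun y : Fin n → ℝ => f1 z k * (Real.sqrt v * y k)) (gam n) :=
      fun k => ((gam_coord n k).1.const_mul _).const_mul _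
    have i2 : ∀ k l, Integrable (fun y : Fin n → ℝ =>
        f2 z k l * ((Real.sqrt v * y k) * (Real.sqrt v * y l))) (gam n) := by
      intro k l
      have := ((gam_mul n k l).1.const_mul (Real.sqrt v * Real.sqrt v)).const_mul (f2 z k l)
      refine this.congr (Filter.Eventually.of_forall (fun y => ?_))
      simp only; ring
    have i3 : Integrable (fun y : Fin n → ℝ => T * (Real.sqrt v ^ 3 * ‖y‖ ^ 3)) (gam n) :=
      ((gam_norm_pow n 3 (by norm_num)).const_mul _).const_mul _
    have i4 : Integrable (fun y : Fin n → ℝ => ∑ k, f1 z k * (Real.sqrt v * y k)) (gam n) :=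
      integrable_finsetSum _ (fun k _ => i1 k)
    have i5 : Integrable (fun y : Fin n → ℝ => ∑ k, ∑ l,
        f2 z k l * ((Real.sqrt v * y k) * (Real.sqrt v * y l))) (gam n) :=
      integrable_finsetSum _ (fun k _ => integrable_finsetSum _ (fun l _ => i2 k l))
    have hbd : ∀ y : Fin n → ℝ, f (z + Real.sqrt v • y) ≤ f z + ∑ k, f1 z k * (Real.sqrt v * y k)
        + (∑ k, ∑ l, f2 z k l * ((Real.sqrt v * y k) * (Real.sqrt v * y l)))
        + T * (Real.sqrt v ^ 3 * ‖y‖ ^ 3) := by
      intro y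
      have h1 := (abs_le.mp (hf12 z (Real.sqrt v • y))).2
      rw [norm_smul, Real.norm_eq_abs, abs_of_nonneg (Real.sqrt_nonneg v), mul_pow] at h1
      simp only [Pi.smul_apply, smul_eq_mul] at h1
      linarith
    have hint : Integrable (fun y : Fin n → ℝ => f (z + Real.sqrt v • y)) (gam n) := by
      refine Integrable.of_bound (C := C) ?_ (Filter.Eventually.of_forall (fun p => ?_))
      · exact (by fun_prop : Continuous _).aestronglyMeasurable
      · exact hC _
    have h1 := integral_mono hint ((((integrable_const (f z)).add i4).add i5).add i3) hbd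
    refine h1.trans (le_of_eq ?_)
    rw [integral_add' (((integrable_const (f z)).add i4).add i5) i3,
      integral_add' ((integrable_const (f z)).add i4) i5, integral_add' (integrable_const (f z)) i4,
      integral_finsetSum _ (fun k _ => i1 k)]
    have b1 : ∑ k, ∫ y : Fin n → ℝ, f1 z k * (Real.sqrt v * y k) ∂(gam n) = 0 := by
      apply Finset.sum_eq_zero
      intro k _
      rw [integral_const_mul, integral_const_mul, (gam_coord n k).2, mul_zero, mul_zero]
    have b2 : ∫ y : Fin n → ℝ, (∑ k, ∑ l,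
        f2 z k l * ((Real.sqrt v * y k) * (Real.sqrt v * y l))) ∂(gam n) = V := by
      rw [integral_finsetSum _ (fun k _ => integrable_finsetSum _ (fun l _ => i2 k l))]
      have : ∀ k, ∫ y : Fin n → ℝ, (∑ l,
          f2 z k l * ((Real.sqrt v * y k) * (Real.sqrt v * y l))) ∂(gam n) = f2 z k k * v := by
        intro k
        rw [integral_finsetSum _ (fun l _ => i2 k l)]
        have : ∀ l, ∫ y : Fin n → ℝ, f2 z k l * ((Real.sqrt v * y k) * (Real.sqrt v * y l))
            ∂(gam n) = f2 z k l * (v * if k = l then 1 else 0) := by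
          intro l
          have e : ∀ y : Fin n → ℝ, f2 z k l * ((Real.sqrt v * y k) * (Real.sqrt v * y l))
              = (f2 z k l * v) * (y k * y l) := by
            intro y
            calc f2 z k l * ((Real.sqrt v * y k) * (Real.sqrt v * y l))
                = f2 z k l * (Real.sqrt v * Real.sqrt v) * (y k * y l) := by ring
              _ = _ := by rw [hsq]
          simp only [e]
          rw [integral_const_mul, (gam_mul n k l).2]
          ring
        simp only [this]
        simp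
      simp only [this]
      rw [← Finset.sum_mul, hV, mul_comm]
    rw [b1, b2, integral_const_mul, integral_const_mul]
    simp [M3]
  have : T * (r ^ 3 + Real.sqrt v ^ 3 * M3 n) = T * r ^ 3 + T * (Real.sqrt v ^ 3 * M3 n) := by
    ring
  rw [this]
  linarith

/-- One step for the averaged functions. -/
lemma FF_step {f : (Fin n → ℝ) → ℝ} {T : ℝ} (hT0 : 0 ≤ T) (hT : Tay f T)
    (hf : Continuous f) {C : ℝ} (hC : ∀ x, |f x| ≤ C)
    {ι : Type} [Fintype ι] {p : ι → ℝ} {h : ι → Fin n → ℝ} {a v r : ℝ} (ha : 0 ≤ a) (hv : 0 ≤ v)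
    (hp : ∀ j, 0 ≤ p j) (hp1 : ∑ j, p j = 1) (hm : Mom p h v r) (z : Fin n → ℝ) :
    FF f (a + v) z - T * (r ^ 3 + Real.sqrt v ^ 3 * M3 n) ≤ ∑ j, p j * FF f a (z + h j) := by
  have hint : ∀ w : Fin n → ℝ, Integrable (fun y : Fin n → ℝ => f (w + Real.sqrt a • y)) (gam n) := by
    intro w
    refine Integrable.of_bound (C := C) ?_ (Filter.Eventually.of_forall (fun p => ?_))
    · exact (by fun_prop : Continuous _).aestronglyMeasurable
    · exact hC _
  have e1 : ∑ j, p j * FF f a (z + h j)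
      = ∫ y, ∑ j, p j * f (z + Real.sqrt a • y + h j) ∂(gam n) := by
    rw [integral_finsetSum]
    · refine Finset.sum_congr rfl (fun j _ => ?_)
      rw [integral_const_mul]
      unfold FF
      congr 2
      funext y
      congr 1
      abel
    · intro j _
      have := (hint (z + h j)).const_mul (p j)
      refine this.congr (Filter.Eventually.of_forall (fun y => ?_))
      simp only
      congr 2
      abel
  have e2 : FF f (a + v) z = ∫ y, ∫ u, f (z + Real.sqrt a • y + Real.sqrt v • u) ∂(gam n) ∂(gam n) :=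
    (gam_semigroup n ha hv hf hC z).symm
  have hprod : Integrable (fun q : (Fin n → ℝ) × (Fin n → ℝ) =>
      f (z + Real.sqrt a • q.1 + Real.sqrt v • q.2)) ((gam n).prod (gam n)) := by
    refine Integrable.of_bound (C := C) ?_ (Filter.Eventually.of_forall (fun p => ?_))
    · exact (by fun_prop : Continuous _).aestronglyMeasurable
    · exact hC _
  rw [e1, e2]
  have e3 : (∫ y, ∫ u, f (z + Real.sqrt a • y + Real.sqrt v • u) ∂(gam n) ∂(gam n))
      - T * (r ^ 3 + Real.sqrt v ^ 3 * M3 n)
      = ∫ y, ((∫ u, f (z + Real.sqrt a • y + Real.sqrt v • u) ∂(gam n))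
        - T * (r ^ 3 + Real.sqrt v ^ 3 * M3 n)) ∂(gam n) := by
    rw [integral_sub hprod.integral_prod_left (integrable_const _)]
    simp
  rw [e3]
  apply integral_mono
  · exact hprod.integral_prod_left.sub (integrable_const _)
  · apply integrable_finsetSum
    intro j _
    have := (hint (z + h j)).const_mul (p j)
    refine this.congr (Filter.Eventually.of_forall (fun y => ?_))
    simp only
    congr 2
    abel
  · intro y
    exact taylor_compare hT0 hT hf hC hv hp hp1 hm _

/-- The claim at level `κ` with error `err`. -/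
def Claim (R : ℝ) (f g : (Fin n → ℝ) → ℝ) (κ err : ℝ) : Prop :=
  ∀ φ : (Fin n → ℝ) → ℝ, Dens R κ φ → ∀ z z' : Fin n → ℝ,
    FF f (1 / κ) z + FF f (1 / κ) z' - 1 - err
      ≤ ∫ x, g (x - bary φ + (4 : ℝ) • (z + z')) * φ x

lemma claim_step {f g : (Fin n → ℝ) → ℝ} {T : ℝ} (hT0 : 0 ≤ T) (hT : Tay f T)
    (hf : Continuous f) {C : ℝ} (hC : ∀ x, |f x| ≤ C) (hg : Continuous g)
    {κ κ' r err : ℝ} (hκ : 0 < κ) (hκκ' : κ ≤ κ')
    (hsplit : ∀ φ : (Fin n → ℝ) → ℝ, Dens R κ φ → SplitData R κ κ' (1 / κ - 1 / κ') r φ)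
    (hcl : Claim R f g κ' err) :
    Claim R f g κ (err + 2 * (T * (r ^ 3 + Real.sqrt (1 / κ - 1 / κ') ^ 3 * M3 n))) := by
  intro φ hφ z z'
  obtain ⟨ι, hι, p, ψ, h, h', hp, hp1, hψ, hφψ, hbary, hm, hm'⟩ := (hsplit φ hφ).ex
  set v := 1 / κ - 1 / κ' with hv
  have hκ' : 0 < κ' := lt_of_lt_of_le hκ hκκ'
  have hv0 : 0 ≤ v := by
    have := one_div_le_one_div_of_le hκ hκκ'
    linarith
  have hav : 1 / κ' + v = 1 / κ := by rw [hv]; ring
  have e1 : ∫ x, g (x - bary φ + (4 : ℝ) • (z + z')) * φ x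
      = ∑ j, p j * ∫ x, g (x - bary (ψ j) + (4 : ℝ) • ((z + h j) + (z' + h' j))) * ψ j x := by
    have a1 : ∀ x, g (x - bary φ + (4 : ℝ) • (z + z')) * φ x
        = ∑ j, p j * (g (x - bary (ψ j) + (4 : ℝ) • ((z + h j) + (z' + h' j))) * ψ j x) := by
      intro x
      rw [hφψ x, Finset.mul_sum]
      refine Finset.sum_congr rfl (fun j _ => ?_)
      have : x - bary (ψ j) + (4 : ℝ) • ((z + h j) + (z' + h' j))
          = x - bary φ + (4 : ℝ) • (z + z') := by
        have hb := hbary j
        have : (4 : ℝ) • ((z + h j) + (z' + h' j)) = (4 : ℝ) • (z + z') + (4:ℝ) • (h j + h' j) := by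
          rw [← smul_add]; congr 1; abel
        rw [this, hb]; abel
      rw [this]; ring
    simp only [a1]
    rw [integral_finsetSum]
    · simp only [integral_const_mul]
    · intro j _
      exact ((hψ j).integrable_mul_cont
        (F := fun x => g (x - bary (ψ j) + (4 : ℝ) • ((z + h j) + (z' + h' j))))
        (by fun_prop)).const_mul _
  rw [e1]
  have h1 : ∑ j, p j * (FF f (1 / κ') (z + h j) + FF f (1 / κ') (z' + h' j) - 1 - err)
      ≤ ∑ j, p j * ∫ x, g (x - bary (ψ j) + (4 : ℝ) • ((z + h j) + (z' + h' j))) * ψ j x := by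
    apply Finset.sum_le_sum
    intro j _
    apply mul_le_mul_of_nonneg_left _ (hp j)
    exact hcl (ψ j) (hψ j) (z + h j) (z' + h' j)
  refine le_trans ?_ h1
  have e2 : ∑ j, p j * (FF f (1 / κ') (z + h j) + FF f (1 / κ') (z' + h' j) - 1 - err)
      = (∑ j, p j * FF f (1 / κ') (z + h j)) + (∑ j, p j * FF f (1 / κ') (z' + h' j)) - 1 - err := by
    simp only [mul_add, mul_sub, Finset.sum_add_distrib, Finset.sum_sub_distrib]
    rw [← Finset.sum_mul, ← Finset.sum_mul, hp1]
    ring
  rw [e2]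
  have h2 := FF_step hT0 hT hf hC (a := 1 / κ') (by positivity) hv0 hp hp1 hm z
  have h3 := FF_step hT0 hT hf hC (a := 1 / κ') (by positivity) hv0 hp hp1 hm' z'
  rw [hav] at h2 h3
  linarith

end Pool.Agent.Talagrand
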