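import Pool.Agent.Lib.PrekopaLeindler

/-!
# Strongly log-concave densities and their covariance
-/

set_option autoImplicit false

open MeasureTheory Set
open scoped ENNReal

namespace Pool.Agent.Talagrand

/-- Midpoint `κ`-strong log-concavity. -/
def LC {n : ℕ} (κ : ℝ) (φ : (Fin n → ℝ) → ℝ) : Prop :=
  ∀ x y, φ x * φ y * Real.exp (κ / 4 * ∑ i, (x i - y i) ^ 2) ≤ φ ((1 / 2 : ℝ) • (x + y)) ^ 2

/-- A probability density supported in the sup-norm ball of radius `R` which is
`κ`-strongly log-concave. -/
structure Dens {n : ℕ} (R κ : ℝ) (φ : (Fin n → ℝ) → ℝ) : Prop where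
  meas : Measurable φ
  nn : ∀ x, 0 ≤ φ x
  supp : ∀ x, φ x ≠ 0 → ‖x‖ ≤ R
  int : Integrable φ
  one : ∫ x, φ x = 1
  lc : LC κ φ

variable {n : ℕ} {R κ : ℝ} {φ : (Fin n → ℝ) → ℝ}

lemma Dens.integrable_mul (h : Dens R κ φ) {F : (Fin n → ℝ) → ℝ} (hF : Measurable F) {C : ℝ}
    (hC : ∀ x, ‖x‖ ≤ R → |F x| ≤ C) : Integrable (fun x => F x * φ x) := by
  have hφ := h.int
  refine Integrable.mono (hφ.const_mul C) ((hF.mul h.meas).aestronglyMeasurable) ?_
  refine Filter.Eventually.of_forall (fun x => ?_)
  by_cases hx : φ x = 0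
  · simp [hx]
  · have h1 := hC x (h.supp x hx)
    simp only [norm_mul, Real.norm_eq_abs]
    have : |F x| ≤ |C| := h1.trans (le_abs_self C)
    gcongr

lemma Dens.integrable_mul_cont (h : Dens R κ φ) {F : (Fin n → ℝ) → ℝ} (hF : Continuous F) :
    Integrable (fun x => F x * φ x) := by
  obtain ⟨C, hC⟩ := (isCompact_closedBall (0 : Fin n → ℝ) R).exists_bound_of_continuousOn
    hF.continuousOn
  exact h.integrable_mul hF.measurable (C := C) (fun x hx => hC x (by simpa using hx))

/-- The barycentre. -/
noncomputable def bary (φ : (Fin n → ℝ) → ℝ) : Fin n → ℝ := fun k => ∫ x, x k * φ x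

lemma Dens.R_nonneg (h : Dens R κ φ) : 0 ≤ R := by
  by_contra hR
  push Not at hR
  have : φ = fun _ => 0 := by
    funext x
    by_contra hx
    have := h.supp x hx
    have := norm_nonneg x
    linarith
  have h1 := h.one
  rw [this] at h1
  simp at h1

lemma Dens.abs_integral_le (h : Dens R κ φ) {F : (Fin n → ℝ) → ℝ} {C : ℝ}
    (hC : ∀ x, ‖x‖ ≤ R → |F x| ≤ C) : |∫ x, F x * φ x| ≤ C := by
  have h1 : ∀ x, ‖F x * φ x‖ ≤ C * φ x := by
    intro x
    by_cases hx : φ x = 0
    · simp [hx]
    · have h1 := hC x (h.supp x hx)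
      rw [norm_mul, Real.norm_eq_abs, Real.norm_eq_abs, abs_of_nonneg (h.nn x)]
      have := h.nn x
      gcongr
  have h2 := norm_integral_le_of_norm_le (h.int.const_mul C) (Filter.Eventually.of_forall h1)
  rw [integral_const_mul, h.one, mul_one] at h2
  exact h2

lemma Dens.norm_bary_le (h : Dens R κ φ) : ‖bary φ‖ ≤ R := by
  rw [pi_norm_le_iff_of_nonneg h.R_nonneg]
  intro k
  exact h.abs_integral_le (F := fun x => x k) (fun x hx => (norm_le_pi_norm x k).trans hx)

lemma Dens.integral_sub_bary (h : Dens R κ φ) (k : Fin n) :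
    ∫ x, (x k - bary φ k) * φ x = 0 := by
  simp only [sub_mul]
  rw [integral_sub]
  · rw [integral_const_mul, h.one]; simp [bary]
  · exact h.integrable_mul_cont (F := fun x => x k) (by fun_prop)
  · exact h.int.const_mul _

lemma two_add_sq_le (x : ℝ) : 2 + x ^ 2 ≤ Real.exp x + Real.exp (-x) := by
  have h1 : Real.exp x + Real.exp (-x) = 2 * Real.cosh x := by
    rw [Real.cosh_eq]; ring
  have h2 : Real.cosh x = 1 + 2 * Real.sinh (x / 2) ^ 2 := by
    have := Real.cosh_two_mul (x / 2)
    rw [show 2 * (x / 2) = x by ring] at this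
    rw [this, Real.cosh_sq]; ring
  have h3 : (x / 2) ^ 2 ≤ Real.sinh (x / 2) ^ 2 := by
    rw [sq_le_sq]
    rcases le_total 0 (x / 2) with h | h
    · have := Real.self_le_sinh_iff.mpr h
      rw [abs_of_nonneg h, abs_of_nonneg (h.trans this)]
      exact this
    · have := Real.sinh_le_self_iff.mpr h
      rw [abs_of_nonpos h, abs_of_nonpos (this.trans h)]
      linarith
  rw [h1, h2]
  nlinarith

/-- Exponential moment estimate from Prekopa-Leindler. -/
lemma Dens.exp_moment (h : Dens R κ φ) (hκ : 0 < κ) (u : Fin n → ℝ) :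
    (∫ x, Real.exp (∑ k, u k * x k) * φ x) * (∫ x, Real.exp (-∑ k, u k * x k) * φ x)
      ≤ Real.exp ((∑ k, u k ^ 2) / κ) := by
  set L : (Fin n → ℝ) → ℝ := fun x => ∑ k, u k * x k with hL
  have hLc : Continuous L := by fun_prop
  set U := ∑ k, u k ^ 2 with hU
  have hPL := Lib.PL.prekopa_leindler n
    (f := fun x => ENNReal.ofReal (Real.exp (L x) * φ x))
    (g := fun x => ENNReal.ofReal (Real.exp (-L x) * φ x))
    (h := fun x => ENNReal.ofReal (Real.exp (U / (2 * κ)) * φ x))
    ((hLc.rexp.measurable.mul h.meas).ennreal_ofReal)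
    ((hLc.neg.rexp.measurable.mul h.meas).ennreal_ofReal)
    ((measurable_const.mul h.meas).ennreal_ofReal)
    (by
      intro x y
      rw [← ENNReal.ofReal_mul (by have := h.nn x; positivity), ← ENNReal.ofReal_pow
        (by have := h.nn ((1 / 2 : ℝ) • (x + y)); positivity)]
      apply ENNReal.ofReal_le_ofReal
      have hlc := h.lc x y
      set S := ∑ i, (x i - y i) ^ 2 with hS
      have hLL : L x - L y ≤ κ / 4 * S + U / κ := by
        have e1 : L x - L y = ∑ k, u k * (x k - y k) := by
          simp only [hL, ← Finset.sum_sub_distrib]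
          exact Finset.sum_congr rfl (fun k _ => by ring)
        rw [e1, hS, hU, Finset.mul_sum, Finset.sum_div, ← Finset.sum_add_distrib]
        apply Finset.sum_le_sum
        intro k _
        have : 0 ≤ (κ / 2 * (x k - y k) - u k) ^ 2 := sq_nonneg _
        have e2 : κ / 4 * (x k - y k) ^ 2 + u k ^ 2 / κ - u k * (x k - y k)
            = (κ / 2 * (x k - y k) - u k) ^ 2 / κ := by
          field_simp
          ring
        have e3 : 0 ≤ (κ / 2 * (x k - y k) - u k) ^ 2 / κ := by positivity
        linarith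
      have hexp : Real.exp (L x) * Real.exp (-L y) ≤
          Real.exp (κ / 4 * S) * Real.exp (U / (2 * κ)) ^ 2 := by
        rw [← Real.exp_add, sq, ← Real.exp_add, ← Real.exp_add]
        apply Real.exp_le_exp.mpr
        have : U / (2 * κ) + U / (2 * κ) = U / κ := by field_simp; ring
        rw [this]
        linarith
      calc Real.exp (L x) * φ x * (Real.exp (-L y) * φ y)
          = (Real.exp (L x) * Real.exp (-L y)) * (φ x * φ y) := by ring
        _ ≤ (Real.exp (κ / 4 * S) * Real.exp (U / (2 * κ)) ^ 2) * (φ x * φ y) := by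
            have := h.nn x
            have := h.nn y
            gcongr
        _ = (φ x * φ y * Real.exp (κ / 4 * S)) * Real.exp (U / (2 * κ)) ^ 2 := by ring
        _ ≤ (φ ((1 / 2 : ℝ) • (x + y)) ^ 2) * Real.exp (U / (2 * κ)) ^ 2 := by gcongr
        _ = (Real.exp (U / (2 * κ)) * φ ((1 / 2 : ℝ) • (x + y))) ^ 2 := by ring)
  have i1 : Integrable (fun x => Real.exp (L x) * φ x) := h.integrable_mul_cont hLc.rexp
  have i2 : Integrable (fun x => Real.exp (-L x) * φ x) := h.integrable_mul_cont hLc.neg.rexp
  have i3 : Integrable (fun x => Real.exp (U / (2 * κ)) * φ x) := h.int.const_mul _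
  have n1 : ∀ x, 0 ≤ Real.exp (L x) * φ x := fun x => by have := h.nn x; positivity
  have n2 : ∀ x, 0 ≤ Real.exp (-L x) * φ x := fun x => by have := h.nn x; positivity
  have n3 : ∀ x, 0 ≤ Real.exp (U / (2 * κ)) * φ x := fun x => by have := h.nn x; positivity
  rw [← ofReal_integral_eq_lintegral_ofReal i1 (Filter.Eventually.of_forall n1),
    ← ofReal_integral_eq_lintegral_ofReal i2 (Filter.Eventually.of_forall n2),
    ← ofReal_integral_eq_lintegral_ofReal i3 (Filter.Eventually.of_forall n3),
    ← ENNReal.ofReal_mul (integral_nonneg n1), ← ENNReal.ofReal_pow (integral_nonneg n3),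
    ENNReal.ofReal_le_ofReal_iff (by positivity)] at hPL
  refine hPL.trans ?_
  rw [integral_const_mul, h.one, mul_one, sq, ← Real.exp_add]
  apply Real.exp_le_exp.mpr
  have : U / (2 * κ) + U / (2 * κ) = U / κ := by field_simp; ring
  rw [this]

/-- Covariance bound for strongly log-concave densities. -/
lemma Dens.cov_le (h : Dens R κ φ) (hκ : 0 < κ) (u : Fin n → ℝ) :
    ∫ x, (∑ k, u k * (x k - bary φ k)) ^ 2 * φ x ≤ 2 / κ * ∑ k, u k ^ 2 := by
  set U := ∑ k, u k ^ 2 with hU
  by_cases hU0 : U = 0
  · have hu : ∀ k, u k = 0 := by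
      intro k
      have := (Finset.sum_eq_zero_iff_of_nonneg (fun k _ => sq_nonneg (u k))).mp hU0 k
        (Finset.mem_univ k)
      exact pow_eq_zero_iff (two_ne_zero) |>.mp this
    simp [hu, hU0]
  have hUpos : 0 < U := lt_of_le_of_ne (Finset.sum_nonneg (fun k _ => sq_nonneg (u k)))
    (Ne.symm hU0)
  set s : ℝ := Real.sqrt (κ / U) with hs
  have hs2 : s ^ 2 = κ / U := Real.sq_sqrt (by positivity)
  set T : (Fin n → ℝ) → ℝ := fun x => ∑ k, u k * (x k - bary φ k) with hT
  have hTc : Continuous T := by fun_prop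
  have hexp := h.exp_moment hκ (fun k => s * u k)
  have e0 : (∑ k, (s * u k) ^ 2) / κ = 1 := by
    simp only [mul_pow]
    rw [← Finset.mul_sum, hs2, ← hU]
    field_simp
  rw [e0] at hexp
  set c : ℝ := s * ∑ k, u k * bary φ k with hc
  have eL : ∀ x : Fin n → ℝ, ∑ k, s * u k * x k = s * T x + c := by
    intro x
    simp only [hT, hc, Finset.mul_sum, ← Finset.sum_add_distrib]
    exact Finset.sum_congr rfl (fun k _ => by ring)
  have i1 : Integrable (fun x => Real.exp (s * T x) * φ x) :=
    h.integrable_mul_cont (by fun_prop)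
  have i2 : Integrable (fun x => Real.exp (-(s * T x)) * φ x) :=
    h.integrable_mul_cont (by fun_prop)
  have iT : Integrable (fun x => T x * φ x) := h.integrable_mul_cont hTc
  have iT2 : Integrable (fun x => T x ^ 2 * φ x) := h.integrable_mul_cont (by fun_prop)
  have hexp' : (∫ x, Real.exp (s * T x) * φ x) * (∫ x, Real.exp (-(s * T x)) * φ x)
      ≤ Real.exp 1 := by
    have e1 : ∀ x, Real.exp (∑ k, s * u k * x k) * φ x
        = Real.exp c * (Real.exp (s * T x) * φ x) := by
      intro x; rw [eL, Real.exp_add]; ring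
    have e2 : ∀ x, Real.exp (-∑ k, s * u k * x k) * φ x
        = Real.exp (-c) * (Real.exp (-(s * T x)) * φ x) := by
      intro x; rw [eL, neg_add, Real.exp_add]; ring
    simp only [e1, e2] at hexp
    rw [integral_const_mul, integral_const_mul] at hexp
    have e3 : Real.exp c * Real.exp (-c) = 1 := by rw [← Real.exp_add]; simp
    calc _ = (Real.exp c * Real.exp (-c)) * ((∫ x, Real.exp (s * T x) * φ x)
          * (∫ x, Real.exp (-(s * T x)) * φ x)) := by rw [e3, one_mul]
      _ ≤ _ := by
        refine le_trans (le_of_eq ?_) hexp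
        ring
  have hT0 : ∫ x, T x * φ x = 0 := by
    have : ∀ x, T x * φ x = ∑ k, u k * ((x k - bary φ k) * φ x) := by
      intro x
      simp only [hT, Finset.sum_mul]
      exact Finset.sum_congr rfl (fun k _ => by ring)
    simp only [this]
    rw [integral_finsetSum]
    · apply Finset.sum_eq_zero
      intro k _
      rw [integral_const_mul, h.integral_sub_bary, mul_zero]
    · intro k _
      exact (h.integrable_mul_cont (F := fun x => x k - bary φ k) (by fun_prop)).const_mul _
  set a := ∫ x, Real.exp (s * T x) * φ x with ha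
  set b := ∫ x, Real.exp (-(s * T x)) * φ x with hb
  have ha1 : 1 ≤ a := by
    have : ∫ x, (1 + s * T x) * φ x = 1 := by
      have e : ∀ x, (1 + s * T x) * φ x = φ x + s * (T x * φ x) := fun x => by ring
      simp only [e]
      rw [integral_add h.int (iT.const_mul _), h.one, integral_const_mul, hT0]; simp
    rw [← this]
    apply integral_mono _ i1
    · intro x
      have h1 := Real.add_one_le_exp (s * T x)
      have := h.nn x
      have h2 : 1 + s * T x ≤ Real.exp (s * T x) := by linarith
      simp only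
      gcongr
    · exact h.integrable_mul_cont (F := fun x => 1 + s * T x) (by fun_prop)
  have hb1 : 1 ≤ b := by
    have : ∫ x, (1 - s * T x) * φ x = 1 := by
      have e : ∀ x, (1 - s * T x) * φ x = φ x - s * (T x * φ x) := fun x => by ring
      simp only [e]
      rw [integral_sub h.int (iT.const_mul _), h.one, integral_const_mul, hT0]; simp
    rw [← this]
    apply integral_mono _ i2
    · intro x
      have h1 := Real.add_one_le_exp (-(s * T x))
      have := h.nn x
      have h2 : 1 - s * T x ≤ Real.exp (-(s * T x)) := by linarith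
      simp only
      gcongr
    · exact h.integrable_mul_cont (F := fun x => 1 - s * T x) (by fun_prop)
  have hab : 2 + s ^ 2 * ∫ x, T x ^ 2 * φ x ≤ a + b := by
    have e1 : 2 + s ^ 2 * ∫ x, T x ^ 2 * φ x = ∫ x, (2 + (s * T x) ^ 2) * φ x := by
      have e : ∀ x, (2 + (s * T x) ^ 2) * φ x = 2 * φ x + s ^ 2 * (T x ^ 2 * φ x) :=
        fun x => by ring
      simp only [e]
      rw [integral_add (h.int.const_mul _) (iT2.const_mul _), integral_const_mul,
        integral_const_mul, h.one]; ring
    rw [e1, ha, hb, ← integral_add i1 i2]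
    apply integral_mono
    · exact h.integrable_mul_cont (F := fun x => 2 + (s * T x) ^ 2) (by fun_prop)
    · exact i1.add i2
    · intro x
      have h1 := two_add_sq_le (s * T x)
      have := h.nn x
      simp only
      calc (2 + (s * T x) ^ 2) * φ x ≤ (Real.exp (s * T x) + Real.exp (-(s * T x))) * φ x := by
            gcongr
        _ = _ := by ring
  have hprod : a + b - 1 ≤ a * b := by nlinarith
  have he : Real.exp 1 ≤ 3 := by
    have := Real.exp_one_lt_d9
    linarith
  have hfin : s ^ 2 * ∫ x, T x ^ 2 * φ x ≤ 2 := by linarith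
  rw [hs2] at hfin
  have : κ / U * ∫ x, T x ^ 2 * φ x ≤ 2 := hfin
  rw [div_mul_eq_mul_div, div_le_iff₀ hUpos] at this
  rw [div_mul_eq_mul_div, le_div_iff₀ hκ]
  linarith

end Pool.Agent.Talagrand
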