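import Pool.Agent.Talagrand.Softmax

/-!
# Minimisation of the average soft maximum
-/

set_option autoImplicit false

open MeasureTheory ProbabilityTheory Set Metric
open scoped ENNReal NNReal

namespace Pool.Agent.Talagrand

variable {n : ℕ} {ι : Type} [Fintype ι]

instance gaussian_openPos : (gaussianReal 0 1).IsOpenPosMeasure :=
  (gaussianReal_absolutelyContinuous' 0 (by norm_num : (1 : ℝ≥0) ≠ 0)).isOpenPosMeasure

/-- The average soft maximum over the ball of radius `R`. -/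
noncomputable def Psi (β R : ℝ) (x h : ι → Fin n → ℝ) : ℝ :=
  ∫ y in closedBall (0 : Fin n → ℝ) R, sm β x h y ∂(gam n)

lemma integrableOn_ball {R : ℝ} {F : (Fin n → ℝ) → ℝ} (hF : Continuous F) :
    IntegrableOn F (closedBall (0 : Fin n → ℝ) R) (gam n) :=
  hF.continuousOn.integrableOn_compact (isCompact_closedBall _ _)

lemma measure_ball_le_one {R : ℝ} : (gam n).real (closedBall (0 : Fin n → ℝ) R) ≤ 1 :=
  measureReal_le_one

lemma dist_bound {R R₁ : ℝ} {x : ι → Fin n → ℝ} (hx : ∀ i, ‖x i‖ ≤ R₁) {y : Fin n → ℝ}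
    (hy : y ∈ closedBall (0 : Fin n → ℝ) R) (i : ι) : ‖y - x i‖ ≤ R + R₁ := by
  have h1 : ‖y‖ ≤ R := by simpa using hy
  have h2 := hx i
  exact (norm_sub_le _ _).trans (by linarith)

lemma Psi_lip {β R R₁ : ℝ} (hβ : 0 < β) (hR : 0 ≤ R) (hR₁ : 0 ≤ R₁) {x : ι → Fin n → ℝ}
    (hx : ∀ i, ‖x i‖ ≤ R₁) (h h' : ι → Fin n → ℝ) :
    Psi β R x h ≤ Psi β R x h' + n * (‖h - h'‖ * (R + R₁)) := by
  unfold Psi
  set D : ℝ := n * (‖h - h'‖ * (R + R₁)) with hD
  have hD0 : 0 ≤ D := by positivity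
  calc ∫ y in closedBall (0 : Fin n → ℝ) R, sm β x h y ∂(gam n)
      ≤ ∫ y in closedBall (0 : Fin n → ℝ) R, (sm β x h' y + D) ∂(gam n) := by
        apply setIntegral_mono_on (integrableOn_ball (sm_cont _ _ _))
          (integrableOn_ball ((sm_cont _ _ _).add continuous_const)) measurableSet_closedBall
        intro y hy
        exact sm_lip hβ (fun i => dist_bound hx hy i) h h'
    _ = (∫ y in closedBall (0 : Fin n → ℝ) R, sm β x h' y ∂(gam n))
          + (gam n).real (closedBall (0 : Fin n → ℝ) R) * D := by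
        rw [integral_add (integrableOn_ball (sm_cont _ _ _)) (integrableOn_ball continuous_const)]
        simp
    _ ≤ _ := by
        have := measure_ball_le_one (n := n) (R := R)
        nlinarith

lemma Psi_cont {β R R₁ : ℝ} (hβ : 0 < β) (hR : 0 ≤ R) (hR₁ : 0 ≤ R₁) {x : ι → Fin n → ℝ}
    (hx : ∀ i, ‖x i‖ ≤ R₁) : Continuous (Psi β R x) := by
  have hlip : LipschitzWith (Real.toNNReal (n * (R + R₁))) (Psi β R x) := by
    apply LipschitzWith.of_dist_le_mul
    intro h h'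
    rw [Real.dist_eq, dist_eq_norm, Real.coe_toNNReal _ (by positivity), abs_le]
    have h1 := Psi_lip hβ hR hR₁ hx h h'
    have h2 := Psi_lip hβ hR hR₁ hx h' h
    rw [norm_sub_rev] at h2
    constructor <;> nlinarith
  exact hlip.continuous

/-- Uniform coercivity constant. -/
lemma exists_coercive (n : ℕ) {R R₁ : ℝ} (hR₁ : 0 ≤ R₁) (hRR : R₁ < R) :
    ∃ c : ℝ, 0 < c ∧ ∀ x : Fin n → ℝ, ‖x‖ ≤ R₁ → ∀ u : Fin n → ℝ,
      c * ‖u‖ ≤ ∫ y in closedBall (0 : Fin n → ℝ) R, max 0 (∑ k, u k * (y k - x k)) ∂(gam n) := by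
  set Λ : (Fin n → ℝ) × (Fin n → ℝ) → ℝ := fun p =>
    ∫ y in closedBall (0 : Fin n → ℝ) R, max 0 (∑ k, p.1 k * (y k - p.2 k)) ∂(gam n) with hΛ
  have hcont : Continuous Λ := by
    apply continuous_parametric_integral_of_continuous (by fun_prop)
    exact isCompact_closedBall _ _
  have hpos : ∀ p : (Fin n → ℝ) × (Fin n → ℝ), p.1 ≠ 0 → ‖p.2‖ ≤ R₁ → 0 < Λ p := by
    rintro ⟨u, x⟩ hu hx
    simp only at hu hx
    have hcF : Continuous (fun y : Fin n → ℝ => max 0 (∑ k, u k * (y k - x k))) := by fun_prop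
    have h0 : 0 ≤ᵐ[(gam n).restrict (closedBall (0 : Fin n → ℝ) R)]
      (fun y : Fin n → ℝ => max 0 (∑ k, u k * (y k - x k))) :=
      Filter.Eventually.of_forall (fun y => le_max_left _ _)
    simp only [hΛ]
    rw [setIntegral_pos_iff_support_of_nonneg_ae h0 (integrableOn_ball hcF)]
    have hopen : IsOpen ((fun y : Fin n → ℝ => ∑ k, u k * (y k - x k)) ⁻¹' (Ioi 0)
        ∩ ball (0 : Fin n → ℝ) R) := by
      apply IsOpen.inter _ isOpen_ball
      exact isOpen_Ioi.preimage (by fun_prop)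
    have hne : ((fun y : Fin n → ℝ => ∑ k, u k * (y k - x k)) ⁻¹' (Ioi 0)
        ∩ ball (0 : Fin n → ℝ) R).Nonempty := by
      have hnu : 0 < ‖u‖ := norm_pos_iff.mpr hu
      set t : ℝ := (R - R₁) / (2 * ‖u‖) with ht
      have ht0 : 0 < t := by
        have : 0 < R - R₁ := by linarith
        positivity
      refine ⟨x + t • u, ?_, ?_⟩
      · simp only [mem_preimage, mem_Ioi, Pi.add_apply, Pi.smul_apply, smul_eq_mul,
          add_sub_cancel_left]
        have e : ∑ k, u k * (t * u k) = t * ∑ k, u k ^ 2 := by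
          rw [Finset.mul_sum]
          exact Finset.sum_congr rfl (fun k _ => by ring)
        rw [e]
        apply mul_pos ht0
        obtain ⟨k, hk⟩ : ∃ k, u k ≠ 0 := by
          by_contra hcon
          push Not at hcon
          exact hu (funext hcon)
        calc 0 < u k ^ 2 := by positivity
          _ ≤ _ := Finset.single_le_sum (f := fun k => u k ^ 2) (fun i _ => sq_nonneg _)
            (Finset.mem_univ k)
      · rw [mem_ball_zero_iff]
        calc ‖x + t • u‖ ≤ ‖x‖ + ‖t • u‖ := norm_add_le _ _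
          _ = ‖x‖ + t * ‖u‖ := by rw [norm_smul, Real.norm_eq_abs, abs_of_pos ht0]
          _ ≤ R₁ + (R - R₁) / 2 := by
            have : t * ‖u‖ = (R - R₁) / 2 := by rw [ht]; field_simp
            linarith
          _ < R := by linarith
    refine lt_of_lt_of_le (hopen.measure_pos (gam n) hne) (measure_mono ?_)
    rintro y ⟨hy1, hy2⟩
    refine ⟨?_, ball_subset_closedBall hy2⟩
    simp only [mem_preimage, mem_Ioi] at hy1
    simp only [Function.mem_support]
    rw [max_eq_right hy1.le]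
    exact hy1.ne'
  rcases Nat.eq_zero_or_pos n with hn | hn
  · refine ⟨1, one_pos, ?_⟩
    intro x _ u
    subst hn
    have : u = 0 := Subsingleton.elim _ _
    rw [this, norm_zero, mul_zero]
    exact integral_nonneg (fun y => le_max_left _ _)
  · have : Nonempty (Fin n) := ⟨⟨0, hn⟩⟩
    have hK : IsCompact ((sphere (0 : Fin n → ℝ) 1) ×ˢ (closedBall (0 : Fin n → ℝ) R₁)) :=
      (isCompact_sphere _ _).prod (isCompact_closedBall _ _)
    have hKne : ((sphere (0 : Fin n → ℝ) 1) ×ˢ (closedBall (0 : Fin n → ℝ) R₁)).Nonempty := by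
      apply Set.Nonempty.prod
      · exact ⟨fun _ => 1, by simp⟩
      · exact ⟨0, by simpa using hR₁⟩
    obtain ⟨p₀, hp₀, hmin⟩ := hK.exists_isMinOn hKne hcont.continuousOn
    obtain ⟨hp1, hp2⟩ := hp₀
    have hp1' : ‖p₀.1‖ = 1 := by simpa using hp1
    have hp2' : ‖p₀.2‖ ≤ R₁ := by simpa using hp2
    have hc : 0 < Λ p₀ := hpos p₀ (by rw [← norm_pos_iff, hp1']; exact one_pos) hp2'
    refine ⟨Λ p₀, hc, ?_⟩
    intro x hx u
    by_cases hu : u = 0
    · rw [hu, norm_zero, mul_zero]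
      exact integral_nonneg (fun y => le_max_left _ _)
    have hnu : 0 < ‖u‖ := norm_pos_iff.mpr hu
    have h1 : Λ p₀ ≤ Λ (‖u‖⁻¹ • u, x) := by
      apply hmin
      refine ⟨?_, by simpa using hx⟩
      simp [norm_smul, hnu.ne']
    have h2 : Λ (‖u‖⁻¹ • u, x) = ‖u‖⁻¹ *
        ∫ y in closedBall (0 : Fin n → ℝ) R, max 0 (∑ k, u k * (y k - x k)) ∂(gam n) := by
      simp only [hΛ]
      rw [← integral_const_mul]
      congr 1
      funext y
      have e : ∑ k, (‖u‖⁻¹ • u) k * (y k - x k) = ‖u‖⁻¹ * ∑ k, u k * (y k - x k) := by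
        rw [Finset.mul_sum]
        refine Finset.sum_congr rfl (fun k _ => ?_)
        simp only [Pi.smul_apply, smul_eq_mul]
        ring
      rw [e, mul_max_of_nonneg _ _ (by positivity), mul_zero]
    rw [h2] at h1
    calc Λ p₀ * ‖u‖ ≤ (‖u‖⁻¹ * ∫ y in closedBall (0 : Fin n → ℝ) R,
          max 0 (∑ k, u k * (y k - x k)) ∂(gam n)) * ‖u‖ := by gcongr
      _ = _ := by field_simp

lemma Psi_lower {β R R₁ c : ℝ} (hβ : 0 < β)
    (hc : ∀ x : Fin n → ℝ, ‖x‖ ≤ R₁ → ∀ u : Fin n → ℝ,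
      c * ‖u‖ ≤ ∫ y in closedBall (0 : Fin n → ℝ) R, max 0 (∑ k, u k * (y k - x k)) ∂(gam n))
    {x : ι → Fin n → ℝ} (hx : ∀ i, ‖x i‖ ≤ R₁) (h : ι → Fin n → ℝ) (i : ι) :
    c * ‖h i‖ ≤ Psi β R x h := by
  refine (hc (x i) (hx i) (h i)).trans ?_
  unfold Psi
  apply setIntegral_mono_on (integrableOn_ball (by fun_prop)) (integrableOn_ball (sm_cont _ _ _))
    measurableSet_closedBall
  intro y _
  apply max_le (sm_nonneg hβ)
  have := aff_le_sm (x := x) (h := h) (y := y) hβ i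
  unfold aff at this
  linarith

lemma exists_minimiser {β R R₁ : ℝ} (hβ : 0 < β) (hR₁ : 0 ≤ R₁) (hRR : R₁ < R)
    {x : ι → Fin n → ℝ} (hx : ∀ i, ‖x i‖ ≤ R₁) :
    ∃ h : ι → Fin n → ℝ, ∀ h', Psi β R x h ≤ Psi β R x h' := by
  obtain ⟨c, hc0, hc⟩ := exists_coercive n hR₁ hRR
  apply (Psi_cont hβ (hR₁.trans hRR.le) hR₁ hx).exists_forall_le
  have h1 : Filter.Tendsto (fun h : ι → Fin n → ℝ => c * ‖h‖)
      (Filter.cocompact (ι → Fin n → ℝ)) Filter.atTop :=
    (tendsto_norm_cocompact_atTop).const_mul_atTop hc0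
  refine Filter.tendsto_atTop_mono (fun h => ?_) h1
  have hΨ0 : 0 ≤ Psi β R x h := by
    unfold Psi
    exact integral_nonneg (fun y => sm_nonneg hβ)
  have h2 : ‖h‖ ≤ Psi β R x h / c := by
    rw [pi_norm_le_iff_of_nonneg (by positivity)]
    intro i
    rw [le_div_iff₀ hc0, mul_comm]
    exact Psi_lower hβ hc hx h i
  rw [le_div_iff₀ hc0] at h2
  linarith

end Pool.Agent.Talagrand
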