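import Pool.Agent.Talagrand.Bump

/-!
# Soft maximum of affine functions
-/

set_option autoImplicit false

open MeasureTheory ProbabilityTheory Set Metric
open scoped ENNReal NNReal

namespace Pool.Agent.Talagrand

variable {n : ℕ} {ι : Type} [Fintype ι]

/-- Affine functions taking the value `1` at `x i`. -/
noncomputable def aff (x h : ι → Fin n → ℝ) (i : ι) (y : Fin n → ℝ) : ℝ :=
  1 + ∑ k, h i k * (y k - x i k)

/-- Partition function. -/
noncomputable def ZZ (β : ℝ) (x h : ι → Fin n → ℝ) (y : Fin n → ℝ) : ℝ :=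
  1 + ∑ i, Real.exp (β * aff x h i y)

/-- Soft maximum. -/
noncomputable def sm (β : ℝ) (x h : ι → Fin n → ℝ) (y : Fin n → ℝ) : ℝ :=
  (1 / β) * Real.log (ZZ β x h y)

/-- Softmax weights. -/
noncomputable def rho (β : ℝ) (x h : ι → Fin n → ℝ) (i : ι) (y : Fin n → ℝ) : ℝ :=
  Real.exp (β * aff x h i y) / ZZ β x h y

variable {β : ℝ} {x h h' : ι → Fin n → ℝ} {y : Fin n → ℝ} {i : ι}

lemma one_le_ZZ : 1 ≤ ZZ β x h y := by
  unfold ZZ
  have : 0 ≤ ∑ i, Real.exp (β * aff x h i y) := Finset.sum_nonneg (fun i _ => (Real.exp_pos _).le)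
  linarith

lemma ZZ_pos : 0 < ZZ β x h y := lt_of_lt_of_le one_pos one_le_ZZ

lemma exp_le_ZZ (i : ι) : Real.exp (β * aff x h i y) ≤ ZZ β x h y := by
  unfold ZZ
  have := Finset.single_le_sum (f := fun i => Real.exp (β * aff x h i y))
    (fun i _ => (Real.exp_pos _).le) (Finset.mem_univ i)
  linarith

lemma aff_le_sm (hβ : 0 < β) (i : ι) : aff x h i y ≤ sm β x h y := by
  unfold sm
  have h1 : β * aff x h i y ≤ Real.log (ZZ β x h y) := by
    rw [Real.le_log_iff_exp_le ZZ_pos]
    exact exp_le_ZZ i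
  rw [one_div, ← div_eq_inv_mul, le_div_iff₀ hβ]
  linarith

lemma sm_nonneg (hβ : 0 < β) : 0 ≤ sm β x h y := by
  unfold sm
  have := Real.log_nonneg (one_le_ZZ (β := β) (x := x) (h := h) (y := y))
  positivity

lemma rho_pos : 0 < rho β x h i y := div_pos (Real.exp_pos _) ZZ_pos

lemma rho_le_one : rho β x h i y ≤ 1 := by
  unfold rho
  rw [div_le_one ZZ_pos]
  exact exp_le_ZZ i

lemma sum_rho_le_one : ∑ i, rho β x h i y ≤ 1 := by
  unfold rho
  rw [← Finset.sum_div, div_le_one ZZ_pos]
  unfold ZZ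
  linarith

lemma aff_cont (x h : ι → Fin n → ℝ) (i : ι) : Continuous (aff x h i) := by
  unfold aff; fun_prop

lemma ZZ_cont (β : ℝ) (x h : ι → Fin n → ℝ) : Continuous (ZZ β x h) := by
  unfold ZZ
  have := aff_cont x h
  fun_prop

lemma sm_cont (β : ℝ) (x h : ι → Fin n → ℝ) : Continuous (sm β x h) := by
  unfold sm
  have := ZZ_cont β x h
  have h2 : Continuous (fun y => Real.log (ZZ β x h y)) := this.log (fun y => ZZ_pos.ne')
  fun_prop

lemma rho_cont (β : ℝ) (x h : ι → Fin n → ℝ) (i : ι) : Continuous (rho β x h i) := by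
  unfold rho
  have h1 := ZZ_cont β x h
  have h2 := aff_cont x h i
  exact (by fun_prop : Continuous fun y => Real.exp (β * aff x h i y)).div h1
    (fun y => ZZ_pos.ne')

lemma lin_bound {R : ℝ} (u y x : Fin n → ℝ) (hR : ‖y - x‖ ≤ R) :
    |∑ k, u k * (y k - x k)| ≤ n * (‖u‖ * R) := by
  calc |∑ k, u k * (y k - x k)| ≤ ∑ k, |u k * (y k - x k)| := Finset.abs_sum_le_sum_abs _ _
    _ ≤ ∑ _k : Fin n, ‖u‖ * R := by
        apply Finset.sum_le_sum
        intro k _
        rw [abs_mul]
        have h1 : |u k| ≤ ‖u‖ := norm_le_pi_norm u k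
        have h2 : |y k - x k| ≤ R := (norm_le_pi_norm (y - x) k).trans hR
        have h3 : 0 ≤ ‖u‖ := norm_nonneg _
        gcongr
    _ = _ := by simp

lemma sm_lip {R : ℝ} (hβ : 0 < β) (hy : ∀ i, ‖y - x i‖ ≤ R) (h h' : ι → Fin n → ℝ) :
    sm β x h y ≤ sm β x h' y + n * (‖h - h'‖ * R) := by
  have key : ∀ i, aff x h i y ≤ aff x h' i y + n * (‖h - h'‖ * R) := by
    intro i
    have hR : 0 ≤ R := (norm_nonneg _).trans (hy i)
    have h1 := lin_bound (h i - h' i) y (x i) (hy i)
    have h2 : ‖h i - h' i‖ ≤ ‖h - h'‖ := norm_le_pi_norm (h - h') i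
    have e : aff x h i y - aff x h' i y = ∑ k, (h i - h' i) k * (y k - x i k) := by
      unfold aff
      have : ∑ k, (h i - h' i) k * (y k - x i k) = ∑ k, h i k * (y k - x i k)
          - ∑ k, h' i k * (y k - x i k) := by
        rw [← Finset.sum_sub_distrib]
        exact Finset.sum_congr rfl (fun k _ => by simp only [Pi.sub_apply]; ring)
      rw [this]; ring
    have h3 := (abs_le.mp h1).2
    have h4 : (n:ℝ) * (‖h i - h' i‖ * R) ≤ n * (‖h - h'‖ * R) := by gcongr
    linarith
  rcases isEmpty_or_nonempty ι with hι | hι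
  · have e : sm β x h y = sm β x h' y := by
      unfold sm ZZ; simp
    rw [e]
    have : h - h' = 0 := by funext i; exact hι.elim i
    rw [this]; simp
  set D : ℝ := n * (‖h - h'‖ * R) with hD
  have hR : 0 ≤ R := (norm_nonneg _).trans (hy hι.some)
  have hD0 : 0 ≤ D := by positivity
  have hZ : ZZ β x h y ≤ Real.exp (β * D) * ZZ β x h' y := by
    unfold ZZ
    rw [mul_add, mul_one, Finset.mul_sum]
    apply add_le_add
    · rw [← Real.exp_zero]
      apply Real.exp_le_exp.mpr
      positivity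
    · apply Finset.sum_le_sum
      intro i _
      rw [← Real.exp_add]
      apply Real.exp_le_exp.mpr
      rw [← mul_add]
      have := key i
      apply mul_le_mul_of_nonneg_left _ hβ.le
      linarith
  have hlog : Real.log (ZZ β x h y) ≤ β * D + Real.log (ZZ β x h' y) := by
    calc Real.log (ZZ β x h y) ≤ Real.log (Real.exp (β * D) * ZZ β x h' y) :=
          Real.log_le_log ZZ_pos hZ
      _ = _ := by rw [Real.log_mul (Real.exp_pos _).ne' ZZ_pos.ne', Real.log_exp]
  unfold sm
  calc 1 / β * Real.log (ZZ β x h y) ≤ 1 / β * (β * D + Real.log (ZZ β x h' y)) := by gcongr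
    _ = _ := by field_simp; ring

/-- Entropy bound. -/
lemma sm_le (hβ : 0 < β) :
    sm β x h y ≤ ∑ i, rho β x h i y * aff x h i y
      + (1 / β) * Real.log (Fintype.card ι + 1) := by
  set Z := ZZ β x h y with hZ
  have hZ0 : 0 < Z := ZZ_pos
  set m : ℝ := Fintype.card ι + 1 with hm
  have hm0 : 0 < m := by positivity
  -- pointwise: `ρ (log Z - b) ≤ ρ log m + 1/m - ρ`
  have key : ∀ b : ℝ, Real.exp b / Z * (Real.log Z - b)
      ≤ Real.exp b / Z * Real.log m + 1 / m - Real.exp b / Z := by
    intro b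
    have hr0 : 0 < Real.exp b / Z := by positivity
    have h1 := Real.log_le_sub_one_of_pos (x := 1 / (m * (Real.exp b / Z))) (by positivity)
    have e : Real.log (1 / (m * (Real.exp b / Z))) = Real.log Z - b - Real.log m := by
      rw [Real.log_div one_ne_zero (by positivity), Real.log_one, Real.log_mul hm0.ne' hr0.ne',
        Real.log_div (Real.exp_pos _).ne' hZ0.ne', Real.log_exp]
      ring
    rw [e] at h1
    have h2 : Real.exp b / Z * (Real.log Z - b - Real.log m)
        ≤ Real.exp b / Z * (1 / (m * (Real.exp b / Z)) - 1) := by gcongr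
    have e3 : Real.exp b / Z * (1 / (m * (Real.exp b / Z)) - 1) = 1 / m - Real.exp b / Z := by
      field_simp
    rw [e3] at h2
    have e4 : Real.exp b / Z * (Real.log Z - b - Real.log m)
      = Real.exp b / Z * (Real.log Z - b) - Real.exp b / Z * Real.log m := by ring
    linarith
  have k0 := key 0
  rw [Real.exp_zero, sub_zero] at k0
  have ks : ∑ i, rho β x h i y * (Real.log Z - β * aff x h i y)
      ≤ ∑ i, (rho β x h i y * Real.log m + 1 / m - rho β x h i y) :=
    Finset.sum_le_sum (fun i _ => key (β * aff x h i y))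
  have hsum : 1 / Z + ∑ i, rho β x h i y = 1 := by
    unfold rho
    rw [← hZ, ← Finset.sum_div, ← add_div]
    exact div_self hZ0.ne'
  have e1 : ∑ i, rho β x h i y * (Real.log Z - β * aff x h i y)
      = (∑ i, rho β x h i y) * Real.log Z - β * ∑ i, rho β x h i y * aff x h i y := by
    rw [Finset.sum_mul, Finset.mul_sum, ← Finset.sum_sub_distrib]
    exact Finset.sum_congr rfl (fun i _ => by ring)
  have e2 : ∑ i, (rho β x h i y * Real.log m + 1 / m - rho β x h i y)
      = (∑ i, rho β x h i y) * Real.log m + Fintype.card ι / m - ∑ i, rho β x h i y := by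
    rw [Finset.sum_sub_distrib, Finset.sum_add_distrib, ← Finset.sum_mul]
    simp only [Finset.sum_const, Finset.card_univ, nsmul_eq_mul]
    ring
  rw [e1, e2] at ks
  have e3 : (Fintype.card ι : ℝ) / m + 1 / m = 1 := by
    rw [← add_div]
    exact div_self hm0.ne'
  have hfin : Real.log Z ≤ β * ∑ i, rho β x h i y * aff x h i y + Real.log m := by
    have a1 : (1 / Z + ∑ i, rho β x h i y) * Real.log Z = Real.log Z := by
      rw [hsum, one_mul]
    have a2 : (1 / Z + ∑ i, rho β x h i y) * Real.log m = Real.log m := by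
      rw [hsum, one_mul]
    nlinarith
  unfold sm
  rw [← hZ]
  calc 1 / β * Real.log Z ≤ 1 / β * (β * ∑ i, rho β x h i y * aff x h i y + Real.log m) := by
        gcongr
    _ = _ := by field_simp

lemma aff_mid (x h : ι → Fin n → ℝ) (i : ι) (y z : Fin n → ℝ) :
    aff x h i ((1 / 2 : ℝ) • (y + z)) = (aff x h i y + aff x h i z) / 2 := by
  unfold aff
  have : ∑ k, h i k * (((1 / 2 : ℝ) • (y + z)) k - x i k)
      = (∑ k, h i k * (y k - x i k) + ∑ k, h i k * (z k - x i k)) / 2 := by
    rw [← Finset.sum_add_distrib, Finset.sum_div]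
    refine Finset.sum_congr rfl (fun k _ => ?_)
    simp only [Pi.smul_apply, Pi.add_apply, smul_eq_mul]
    ring
  rw [this]; ring

/-- The softmax weights are log-concave. -/
lemma rho_lc (y z : Fin n → ℝ) :
    rho β x h i y * rho β x h i z ≤ rho β x h i ((1 / 2 : ℝ) • (y + z)) ^ 2 := by
  set m := (1 / 2 : ℝ) • (y + z) with hm
  have hmid : ∀ j, Real.exp (β * aff x h j m) ^ 2
      = Real.exp (β * aff x h j y) * Real.exp (β * aff x h j z) := by
    intro j
    rw [← Real.exp_add, sq, ← Real.exp_add, hm, aff_mid]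
    congr 1; ring
  have hZ : ZZ β x h m ^ 2 ≤ ZZ β x h y * ZZ β x h z := by
    have hcs := Finset.sum_mul_sq_le_sq_mul_sq (Finset.univ : Finset (Option ι))
      (fun j => Real.sqrt (match j with | none => 1 | some i => Real.exp (β * aff x h i y)))
      (fun j => Real.sqrt (match j with | none => 1 | some i => Real.exp (β * aff x h i z)))
    simp only [Fintype.sum_option, Real.sqrt_one, mul_one, one_pow] at hcs
    have e1 : ∀ j, Real.sqrt (Real.exp (β * aff x h j y)) * Real.sqrt (Real.exp (β * aff x h j z))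
        = Real.exp (β * aff x h j m) := by
      intro j
      rw [← Real.sqrt_mul (Real.exp_pos _).le, ← hmid j, Real.sqrt_sq (Real.exp_pos _).le]
    have e2 : ∀ j, Real.sqrt (Real.exp (β * aff x h j y)) ^ 2 = Real.exp (β * aff x h j y) :=
      fun j => Real.sq_sqrt (Real.exp_pos _).le
    have e3 : ∀ j, Real.sqrt (Real.exp (β * aff x h j z)) ^ 2 = Real.exp (β * aff x h j z) :=
      fun j => Real.sq_sqrt (Real.exp_pos _).le
    simp only [e1, e2, e3] at hcs
    exact hcs
  unfold rho
  rw [div_pow, hmid i, div_mul_div_comm]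
  have p1 : 0 < ZZ β x h m := ZZ_pos
  have p2 : 0 < ZZ β x h y := ZZ_pos
  have p3 : 0 < ZZ β x h z := ZZ_pos
  gcongr

end Pool.Agent.Talagrand
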