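import Pool.Agent.Talagrand.Tilt

/-!
# The splitting step
-/

set_option autoImplicit false

open MeasureTheory Set
open scoped ENNReal MatrixOrder

namespace Pool.Agent.Talagrand

variable {n : ℕ} {R κ : ℝ} {φ : (Fin n → ℝ) → ℝ}

/-- Mass of the tilted density. -/
noncomputable def mass (ε : ℝ) (φ : (Fin n → ℝ) → ℝ) (σ : Fin n → Bool) : ℝ :=
  ∫ x, wt ε (bary φ) σ x * φ x

/-- First moments of the tilted density (not normalised, centred at the old barycentre). -/
noncomputable def qq (ε : ℝ) (φ : (Fin n → ℝ) → ℝ) (σ : Fin n → Bool) (k : Fin n) : ℝ :=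
  ∫ x, (x k - bary φ k) * (wt ε (bary φ) σ x * φ x)

/-- The constant. -/
noncomputable def KK (n : ℕ) (R ε : ℝ) : ℝ := n ^ 2 * 2 ^ n * (2 * R * ε) ^ 2

lemma Dens.integrable_wt (h : Dens R κ φ) (ε : ℝ) (b : Fin n → ℝ) (σ : Fin n → Bool) :
    Integrable (fun x => wt ε b σ x * φ x) := h.integrable_mul_cont (wt_cont ε b σ)

lemma Dens.wt_expand (h : Dens R κ φ) {ε : ℝ} (hε : 0 ≤ ε) (hεR : 2 * R * ε ≤ 1 / 10)
    (σ : Fin n → Bool) {x : Fin n → ℝ} (hx : ‖x‖ ≤ R) :
    |wt ε (bary φ) σ x - 1| ≤ n * 2 ^ n * (2 * R * ε) ∧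
    |wt ε (bary φ) σ x - 1 - ∑ k, sg (σ k) * (ε * (x k - bary φ k))| ≤ KK n R ε := by
  have hb := h.norm_bary_le
  have hR := h.R_nonneg
  have := prod_one_add_bounds (Finset.univ : Finset (Fin n))
    (fun k => sg (σ k) * (ε * (x k - bary φ k))) (τ := 2 * R * ε) (by positivity) (by linarith)
    (fun k _ => coord_bound hε hx hb (σ k) k)
  simp only [Finset.card_univ, Fintype.card_fin] at this
  exact ⟨this.2.1, this.2.2⟩

lemma Dens.integral_lin (h : Dens R κ φ) (c : Fin n → ℝ) :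
    ∫ x, (∑ k, c k * (x k - bary φ k)) * φ x = 0 := by
  have : ∀ x : Fin n → ℝ, (∑ k, c k * (x k - bary φ k)) * φ x
      = ∑ k, c k * ((x k - bary φ k) * φ x) := by
    intro x
    rw [Finset.sum_mul]
    exact Finset.sum_congr rfl (fun k _ => by ring)
  simp only [this]
  rw [integral_finsetSum]
  · apply Finset.sum_eq_zero
    intro k _
    rw [integral_const_mul, h.integral_sub_bary, mul_zero]
  · intro k _
    exact (h.integrable_mul_cont (F := fun x => x k - bary φ k) (by fun_prop)).const_mul _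

lemma Dens.abs_mass_sub_one (h : Dens R κ φ) {ε : ℝ} (hε : 0 ≤ ε) (hεR : 2 * R * ε ≤ 1 / 10)
    (σ : Fin n → Bool) : |mass ε φ σ - 1| ≤ KK n R ε := by
  have e : mass ε φ σ - 1 = ∫ x, (wt ε (bary φ) σ x - 1
      - ∑ k, sg (σ k) * (ε * (x k - bary φ k))) * φ x := by
    have h1 : ∀ x, (wt ε (bary φ) σ x - 1
      - ∑ k, sg (σ k) * (ε * (x k - bary φ k))) * φ x = (wt ε (bary φ) σ x * φ x - φ x)
        - (∑ k, (sg (σ k) * ε) * (x k - bary φ k)) * φ x := by
      intro x
      have : ∑ k, sg (σ k) * (ε * (x k - bary φ k))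
        = ∑ k, (sg (σ k) * ε) * (x k - bary φ k) :=
        Finset.sum_congr rfl (fun k _ => by ring)
      rw [this]; ring
    simp only [h1]
    rw [integral_sub, integral_sub, h.integral_lin, h.one]
    · simp [mass]
    · exact h.integrable_wt _ _ _
    · exact h.int
    · exact (h.integrable_wt _ _ _).sub h.int
    · exact h.integrable_mul_cont (by fun_prop)
  rw [e]
  exact h.abs_integral_le (fun x hx => (h.wt_expand hε hεR σ hx).2)

lemma Dens.sum_mass (h : Dens R κ φ) (ε : ℝ) : ∑ σ : Fin n → Bool, mass ε φ σ = 2 ^ n := by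
  unfold mass
  rw [← integral_finsetSum _ (fun σ _ => h.integrable_wt _ _ _)]
  simp only [← Finset.sum_mul, sum_wt]
  rw [integral_const_mul, h.one, mul_one]

lemma Dens.integrable_q (h : Dens R κ φ) (ε : ℝ) (σ : Fin n → Bool) (k : Fin n) :
    Integrable (fun x => (x k - bary φ k) * (wt ε (bary φ) σ x * φ x)) := by
  have : (fun x : Fin n → ℝ => (x k - bary φ k) * (wt ε (bary φ) σ x * φ x))
      = fun x => ((x k - bary φ k) * wt ε (bary φ) σ x) * φ x := by
    funext x; ring
  rw [this]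
  have := wt_cont ε (bary φ) σ
  exact h.integrable_mul_cont (by fun_prop)

lemma Dens.sum_qq (h : Dens R κ φ) (ε : ℝ) (k : Fin n) :
    ∑ σ : Fin n → Bool, qq ε φ σ k = 0 := by
  unfold qq
  rw [← integral_finsetSum _ (fun σ _ => h.integrable_q _ _ _)]
  have : ∀ x : Fin n → ℝ, ∑ σ : Fin n → Bool, (x k - bary φ k) * (wt ε (bary φ) σ x * φ x)
      = 2 ^ n * ((x k - bary φ k) * φ x) := by
    intro x
    rw [← Finset.mul_sum, ← Finset.sum_mul, sum_wt]; ring
  simp only [this]
  rw [integral_const_mul, h.integral_sub_bary, mul_zero]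

lemma Dens.sub_bary_bound (h : Dens R κ φ) {x : Fin n → ℝ} (hx : ‖x‖ ≤ R) (k : Fin n) :
    |x k - bary φ k| ≤ 2 * R := by
  have h1 : |x k| ≤ R := (norm_le_pi_norm x k).trans hx
  have h2 : |bary φ k| ≤ R := (norm_le_pi_norm (bary φ) k).trans h.norm_bary_le
  calc |x k - bary φ k| ≤ |x k| + |bary φ k| := abs_sub _ _
    _ ≤ 2 * R := by linarith

lemma Dens.abs_qq_le (h : Dens R κ φ) {ε : ℝ} (hε : 0 ≤ ε) (hεR : 2 * R * ε ≤ 1 / 10)
    (σ : Fin n → Bool) (k : Fin n) : |qq ε φ σ k| ≤ (2 * R) * (n * 2 ^ n * (2 * R * ε)) := by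
  have hR := h.R_nonneg
  have hw := wt_cont ε (bary φ) σ
  have e : qq ε φ σ k = ∫ x, ((x k - bary φ k) * (wt ε (bary φ) σ x - 1)) * φ x := by
    have h1 : ∀ x : Fin n → ℝ, ((x k - bary φ k) * (wt ε (bary φ) σ x - 1)) * φ x
        = (x k - bary φ k) * (wt ε (bary φ) σ x * φ x) - (x k - bary φ k) * φ x := by
      intro x; ring
    simp only [h1]
    rw [integral_sub (h.integrable_q _ _ _), h.integral_sub_bary, sub_zero]
    · rfl
    · exact h.integrable_mul_cont (by fun_prop)
  rw [e]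
  apply h.abs_integral_le
  intro x hx
  rw [abs_mul]
  have h1 := h.sub_bary_bound hx k
  have h2 := (h.wt_expand hε hεR σ hx).1
  gcongr

/-- Covariance applied to `u`. -/
noncomputable def Au (φ : (Fin n → ℝ) → ℝ) (u : Fin n → ℝ) (k : Fin n) : ℝ :=
  ∫ x, (∑ l, u l * (x l - bary φ l)) * (x k - bary φ k) * φ x

lemma Dens.sum_Au_sq (h : Dens R κ φ) (hκ : 0 < κ) (u : Fin n → ℝ) :
    ∑ k, Au φ u k ^ 2 ≤ 4 / κ ^ 2 * ∑ k, u k ^ 2 := by
  set U := ∑ k, u k ^ 2 with hU
  set a := Au φ u with ha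
  set A := ∑ k, a k ^ 2 with hA
  set T : (Fin n → ℝ) → ℝ := fun x => ∑ k, u k * (x k - bary φ k) with hT
  set S : (Fin n → ℝ) → ℝ := fun x => ∑ k, a k * (x k - bary φ k) with hS
  have hTc : Continuous T := by fun_prop
  have hSc : Continuous S := by fun_prop
  have e1 : A = ∫ x, (T x * S x) * φ x := by
    have : ∀ x, (T x * S x) * φ x = ∑ k, a k * (T x * (x k - bary φ k) * φ x) := by
      intro x
      simp only [hS, Finset.mul_sum, Finset.sum_mul]
      exact Finset.sum_congr rfl (fun k _ => by ring)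
    simp only [this]
    rw [integral_finsetSum]
    · simp only [integral_const_mul]
      rw [hA]
      refine Finset.sum_congr rfl (fun k _ => ?_)
      rw [sq]; rfl
    · intro k _
      exact (h.integrable_mul_cont (F := fun x => T x * (x k - bary φ k))
        (by fun_prop)).const_mul _
  have hcT := h.cov_le hκ u
  have hcS := h.cov_le hκ a
  have iT : Integrable (fun x => T x ^ 2 * φ x) := h.integrable_mul_cont (by fun_prop)
  have iS : Integrable (fun x => S x ^ 2 * φ x) := h.integrable_mul_cont (by fun_prop)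
  have e2 : ∫ x, (T x * S x) * φ x ≤ (1 / κ) * (∫ x, T x ^ 2 * φ x)
      + (κ / 4) * (∫ x, S x ^ 2 * φ x) := by
    rw [← integral_const_mul, ← integral_const_mul, ← integral_add (iT.const_mul _)
      (iS.const_mul _)]
    apply integral_mono
    · exact h.integrable_mul_cont (F := fun x => T x * S x) (by fun_prop)
    · exact (iT.const_mul _).add (iS.const_mul _)
    · intro x
      have hn := h.nn x
      simp only
      have : T x * S x ≤ 1 / κ * T x ^ 2 + κ / 4 * S x ^ 2 := by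
        have e : 1 / κ * T x ^ 2 + κ / 4 * S x ^ 2 - T x * S x = (T x - κ / 2 * S x) ^ 2 / κ := by
          field_simp
          ring
        have : 0 ≤ (T x - κ / 2 * S x) ^ 2 / κ := by positivity
        linarith
      calc T x * S x * φ x ≤ (1 / κ * T x ^ 2 + κ / 4 * S x ^ 2) * φ x := by gcongr
        _ = _ := by ring
  have h3 : A ≤ (1 / κ) * (2 / κ * U) + (κ / 4) * (2 / κ * A) := by
    rw [← e1] at e2
    refine e2.trans ?_
    gcongr
  have h4 : (κ / 4) * (2 / κ * A) = A / 2 := by field_simp; ring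
  have h5 : (1 / κ) * (2 / κ * U) = 2 / κ ^ 2 * U := by field_simp
  rw [h4, h5] at h3
  have h6 : 4 / κ ^ 2 * U = 2 * (2 / κ ^ 2 * U) := by ring
  rw [h6]
  linarith

lemma Dens.lin_qq (h : Dens R κ φ) {ε : ℝ} (hε : 0 ≤ ε) (hεR : 2 * R * ε ≤ 1 / 10)
    (σ : Fin n → Bool) (u : Fin n → ℝ) :
    |∑ k, u k * qq ε φ σ k - ε * ∑ k, Au φ u k * sg (σ k)|
      ≤ (2 * R * ∑ k, |u k|) * KK n R ε := by
  have hR := h.R_nonneg
  set T : (Fin n → ℝ) → ℝ := fun x => ∑ k, u k * (x k - bary φ k) with hT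
  have hTc : Continuous T := by fun_prop
  have hw := wt_cont ε (bary φ) σ
  have e1 : ∑ k, u k * qq ε φ σ k = ∫ x, (T x * wt ε (bary φ) σ x) * φ x := by
    have : ∀ x, (T x * wt ε (bary φ) σ x) * φ x
        = ∑ k, u k * ((x k - bary φ k) * (wt ε (bary φ) σ x * φ x)) := by
      intro x
      simp only [hT, Finset.sum_mul]
      exact Finset.sum_congr rfl (fun k _ => by ring)
    simp only [this]
    rw [integral_finsetSum]
    · simp only [integral_const_mul]
      rfl
    · intro k _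
      exact (h.integrable_q _ _ _).const_mul _
  have e2 : ε * ∑ k, Au φ u k * sg (σ k)
      = ∫ x, (T x * ∑ k, sg (σ k) * (ε * (x k - bary φ k))) * φ x := by
    have : ∀ x, (T x * ∑ k, sg (σ k) * (ε * (x k - bary φ k))) * φ x
        = ∑ k, (ε * sg (σ k)) * (T x * (x k - bary φ k) * φ x) := by
      intro x
      simp only [Finset.mul_sum, Finset.sum_mul]
      exact Finset.sum_congr rfl (fun k _ => by ring)
    simp only [this]
    rw [integral_finsetSum]
    · simp only [integral_const_mul]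
      rw [Finset.mul_sum]
      refine Finset.sum_congr rfl (fun k _ => ?_)
      unfold Au
      ring
    · intro k _
      exact (h.integrable_mul_cont (F := fun x => T x * (x k - bary φ k))
        (by fun_prop)).const_mul _
  have e3 : ∫ x, T x * φ x = 0 := h.integral_lin u
  have e4 : ∑ k, u k * qq ε φ σ k - ε * ∑ k, Au φ u k * sg (σ k)
      = ∫ x, (T x * (wt ε (bary φ) σ x - 1 - ∑ k, sg (σ k) * (ε * (x k - bary φ k)))) * φ x := by
    have : ∀ x, (T x * (wt ε (bary φ) σ x - 1 - ∑ k, sg (σ k) * (ε * (x k - bary φ k)))) * φ x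
        = ((T x * wt ε (bary φ) σ x) * φ x - T x * φ x)
          - (T x * ∑ k, sg (σ k) * (ε * (x k - bary φ k))) * φ x := by
      intro x; ring
    simp only [this]
    rw [integral_sub, integral_sub, e3, e1, e2, sub_zero]
    · exact h.integrable_mul_cont (F := fun x => T x * wt ε (bary φ) σ x) (by fun_prop)
    · exact h.integrable_mul_cont (F := fun x => T x) (by fun_prop)
    · exact (h.integrable_mul_cont (F := fun x => T x * wt ε (bary φ) σ x) (by fun_prop)).sub
        (h.integrable_mul_cont (F := fun x => T x) (by fun_prop))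
    · exact h.integrable_mul_cont
        (F := fun x => (T x * ∑ k, sg (σ k) * (ε * (x k - bary φ k)))) (by fun_prop)
  rw [e4]
  apply h.abs_integral_le
  intro x hx
  rw [abs_mul]
  have h1 : |T x| ≤ 2 * R * ∑ k, |u k| := by
    calc |T x| ≤ ∑ k, |u k * (x k - bary φ k)| := Finset.abs_sum_le_sum_abs _ _
      _ ≤ ∑ k, 2 * R * |u k| := by
        apply Finset.sum_le_sum
        intro k _
        rw [abs_mul]
        have := h.sub_bary_bound hx k
        calc |u k| * |x k - bary φ k| ≤ |u k| * (2 * R) := by gcongr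
          _ = _ := by ring
      _ = _ := by rw [Finset.mul_sum]
  have h2 := (h.wt_expand hε hεR σ hx).2
  have h3 : 0 ≤ 2 * R * ∑ k, |u k| := by positivity
  gcongr

/-- The quadratic form bound for the covariance of the new barycentres. -/
lemma Dens.quad_bound (h : Dens R κ φ) (hκ : 0 < κ) {ε : ℝ} (hε : 0 ≤ ε)
    (hεR : 2 * R * ε ≤ 1 / 10) (hK : KK n R ε ≤ 1 / 3) (u : Fin n → ℝ) :
    ∑ σ : Fin n → Bool, (1 / 2 : ℝ) ^ n * mass ε φ σ *
        (∑ k, u k * (qq ε φ σ k / mass ε φ σ)) ^ 2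
      ≤ (12 * ε ^ 2 / κ ^ 2 + 12 * R ^ 2 * n * KK n R ε ^ 2) * ∑ k, u k ^ 2 := by
  have hR := h.R_nonneg
  set U := ∑ k, u k ^ 2 with hU
  have hm : ∀ σ : Fin n → Bool, 2 / 3 ≤ mass ε φ σ := by
    intro σ
    have := h.abs_mass_sub_one hε hεR σ
    rw [abs_le] at this
    linarith
  set e : ℝ := (2 * R * ∑ k, |u k|) * KK n R ε with he
  have hKK0 : 0 ≤ KK n R ε := by unfold KK; positivity
  have he0 : 0 ≤ e := by positivity
  have hterm : ∀ σ : Fin n → Bool, (1 / 2 : ℝ) ^ n * mass ε φ σ *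
        (∑ k, u k * (qq ε φ σ k / mass ε φ σ)) ^ 2
      ≤ (1 / 2 : ℝ) ^ n * (3 * ε ^ 2 * (∑ k, Au φ u k * sg (σ k)) ^ 2 + 3 * e ^ 2) := by
    intro σ
    have hmσ := hm σ
    have hm0 : 0 < mass ε φ σ := by linarith
    have e1 : ∑ k, u k * (qq ε φ σ k / mass ε φ σ) = (∑ k, u k * qq ε φ σ k) / mass ε φ σ := by
      rw [Finset.sum_div]
      exact Finset.sum_congr rfl (fun k _ => by ring)
    rw [e1, mul_assoc]
    gcongr
    set Q := ∑ k, u k * qq ε φ σ k with hQ
    set L := ∑ k, Au φ u k * sg (σ k) with hL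
    have h1 : |Q - ε * L| ≤ e := h.lin_qq hε hεR σ u
    have h2 : Q ^ 2 ≤ 2 * (ε * L) ^ 2 + 2 * e ^ 2 := by
      have h3 : (Q - ε * L) ^ 2 ≤ e ^ 2 := by
        rw [← sq_abs]
        gcongr
      nlinarith [sq_nonneg (Q - 2 * (ε * L))]
    have e2 : mass ε φ σ * (Q / mass ε φ σ) ^ 2 = Q ^ 2 / mass ε φ σ := by
      field_simp
    rw [e2, div_le_iff₀ hm0]
    calc Q ^ 2 ≤ 2 * (ε * L) ^ 2 + 2 * e ^ 2 := h2
      _ = (3 * ε ^ 2 * L ^ 2 + 3 * e ^ 2) * (2 / 3) := by ring
      _ ≤ (3 * ε ^ 2 * L ^ 2 + 3 * e ^ 2) * mass ε φ σ := by gcongr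
  have hc : (∑ k, |u k|) ^ 2 ≤ n * U := by
    have := sq_sum_le_card_mul_sum_sq (s := (Finset.univ : Finset (Fin n))) (f := fun k => |u k|)
    simpa [sq_abs, hU] using this
  have he2 : e ^ 2 ≤ 4 * R ^ 2 * n * KK n R ε ^ 2 * U := by
    calc e ^ 2 = (4 * R ^ 2 * KK n R ε ^ 2) * (∑ k, |u k|) ^ 2 := by rw [he]; ring
      _ ≤ (4 * R ^ 2 * KK n R ε ^ 2) * (n * U) := by gcongr
      _ = _ := by ring
  have hAu := h.sum_Au_sq hκ u
  have hpow : (1 / 2 : ℝ) ^ n * 2 ^ n = 1 := by rw [← mul_pow]; norm_num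
  calc ∑ σ : Fin n → Bool, (1 / 2 : ℝ) ^ n * mass ε φ σ *
        (∑ k, u k * (qq ε φ σ k / mass ε φ σ)) ^ 2
      ≤ ∑ σ : Fin n → Bool,
          (1 / 2 : ℝ) ^ n * (3 * ε ^ 2 * (∑ k, Au φ u k * sg (σ k)) ^ 2 + 3 * e ^ 2) :=
        Finset.sum_le_sum (fun σ _ => hterm σ)
    _ = 3 * ε ^ 2 * ∑ k, Au φ u k ^ 2 + 3 * e ^ 2 := by
        rw [← Finset.mul_sum, Finset.sum_add_distrib, ← Finset.mul_sum, sum_sq_sign]
        simp only [Finset.sum_const, Finset.card_univ, Fintype.card_pi, Fintype.card_bool,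
          Finset.prod_const, Fintype.card_fin, nsmul_eq_mul]
        push_cast
        calc (1 / 2 : ℝ) ^ n * (3 * ε ^ 2 * (2 ^ n * ∑ k, Au φ u k ^ 2) + 2 ^ n * (3 * e ^ 2))
            = ((1 / 2 : ℝ) ^ n * 2 ^ n) * (3 * ε ^ 2 * ∑ k, Au φ u k ^ 2 + 3 * e ^ 2) := by ring
          _ = _ := by rw [hpow, one_mul]
    _ ≤ 3 * ε ^ 2 * (4 / κ ^ 2 * U) + 3 * (4 * R ^ 2 * n * KK n R ε ^ 2 * U) := by gcongr
    _ = _ := by ring

/-- Centred, covariance `v • 1`, bounded by `r`. -/
structure Mom {ι : Type} [Fintype ι] (p : ι → ℝ) (h : ι → Fin n → ℝ) (v r : ℝ) : Prop where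
  first : ∀ k, ∑ j, p j * h j k = 0
  second : ∀ k l, ∑ j, p j * (h j k * h j l) = if k = l then v else 0
  bound : ∀ j, ‖h j‖ ≤ r

/-- Conclusion of the splitting step for a density `φ`. -/
structure SplitData (R κ κ' v r : ℝ) (φ : (Fin n → ℝ) → ℝ) : Prop where
  ex : ∃ (ι : Type) (_ : Fintype ι) (p : ι → ℝ) (ψ : ι → (Fin n → ℝ) → ℝ)
    (h h' : ι → Fin n → ℝ),
    (∀ j, 0 ≤ p j) ∧ ∑ j, p j = 1 ∧ (∀ j, Dens R κ' (ψ j)) ∧
    (∀ x, φ x = ∑ j, p j * ψ j x) ∧
    (∀ j, (4 : ℝ) • (h j + h' j) = bary (ψ j) - bary φ) ∧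
    Mom p h v r ∧ Mom p h' v r

lemma Dens.split_aux (h : Dens R κ φ) (hn : 0 < n) (hκ : 0 < κ) {ε v : ℝ} (hε : 0 ≤ ε)
    (hεR : 2 * R * ε ≤ 1 / 10) (hK : KK n R ε ≤ 1 / 3)
    (hv : 12 * ε ^ 2 / κ ^ 2 + 12 * R ^ 2 * n * KK n R ε ^ 2 ≤ 64 * v) (hvε : v ≤ ε ^ 2) :
    SplitData R κ (κ + ε ^ 2 / 2) v ((R ^ 2 * (n * 2 ^ n) + n) * ε) φ := by
  have hR := h.R_nonneg
  have hm : ∀ σ : Fin n → Bool, 2 / 3 ≤ mass ε φ σ := by
    intro σ
    have := h.abs_mass_sub_one hε hεR σ
    rw [abs_le] at this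
    linarith
  have hm0 : ∀ σ : Fin n → Bool, 0 < mass ε φ σ := fun σ => by have := hm σ; linarith
  set c : ℝ := (1 / 2 : ℝ) ^ n with hc
  have hc0 : 0 < c := by positivity
  have hpow : c * 2 ^ n = 1 := by rw [hc, ← mul_pow]; norm_num
  set d : (Fin n → Bool) → Fin n → ℝ := fun σ k => qq ε φ σ k / mass ε φ σ with hd
  -- the pieces
  set ψ : (Fin n → Bool) → (Fin n → ℝ) → ℝ :=
    fun σ x => (mass ε φ σ)⁻¹ * (wt ε (bary φ) σ x * φ x) with hψ
  have hψD : ∀ σ, Dens R (κ + ε ^ 2 / 2) (ψ σ) := by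
    intro σ
    have hmσ := hm0 σ
    have hnn : ∀ x, 0 ≤ wt ε (bary φ) σ x * φ x := by
      intro x
      by_cases hx : φ x = 0
      · simp [hx]
      · have hxR := h.supp x hx
        apply mul_nonneg _ (h.nn x)
        unfold wt
        apply Finset.prod_nonneg
        intro k _
        have h1 := (coord_bound hε hxR h.norm_bary_le (σ k) k).trans hεR
        rw [abs_le] at h1
        linarith
    refine ⟨?_, ?_, ?_, ?_, ?_, ?_⟩
    · exact measurable_const.mul ((wt_cont _ _ _).measurable.mul h.meas)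
    · intro x
      have := hnn x
      positivity
    · intro x hx
      apply h.supp x
      intro h0
      apply hx
      simp [hψ, h0]
    · exact (h.integrable_wt _ _ _).const_mul _
    · simp only [hψ]
      rw [integral_const_mul]
      exact inv_mul_cancel₀ hmσ.ne'
    · intro x y
      have h1 := h.lc.tilt h.nn h.supp hε hεR h.norm_bary_le σ x y
      simp only at h1
      simp only [hψ]
      calc (mass ε φ σ)⁻¹ * (wt ε (bary φ) σ x * φ x) *
            ((mass ε φ σ)⁻¹ * (wt ε (bary φ) σ y * φ y)) *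
            Real.exp ((κ + ε ^ 2 / 2) / 4 * ∑ i, (x i - y i) ^ 2)
          = (mass ε φ σ)⁻¹ ^ 2 * (wt ε (bary φ) σ x * φ x * (wt ε (bary φ) σ y * φ y) *
            Real.exp ((κ + ε ^ 2 / 2) / 4 * ∑ i, (x i - y i) ^ 2)) := by ring
        _ ≤ (mass ε φ σ)⁻¹ ^ 2 * (wt ε (bary φ) σ ((1 / 2 : ℝ) • (x + y)) *
            φ ((1 / 2 : ℝ) • (x + y))) ^ 2 := by gcongr
        _ = _ := by ring
  have hbary : ∀ σ k, bary (ψ σ) k = bary φ k + d σ k := by
    intro σ k
    have hmσ := hm0 σ
    change ∫ x, x k * ((mass ε φ σ)⁻¹ * (wt ε (bary φ) σ x * φ x))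
      = bary φ k + qq ε φ σ k / mass ε φ σ
    have e : ∀ x : Fin n → ℝ, x k * ((mass ε φ σ)⁻¹ * (wt ε (bary φ) σ x * φ x))
        = (mass ε φ σ)⁻¹ * ((x k - bary φ k) * (wt ε (bary φ) σ x * φ x))
          + ((mass ε φ σ)⁻¹ * bary φ k) * (wt ε (bary φ) σ x * φ x) := by
      intro x; ring
    simp only [e]
    rw [integral_add ((h.integrable_q _ _ _).const_mul _) ((h.integrable_wt _ _ _).const_mul _),
      integral_const_mul, integral_const_mul]
    change (mass ε φ σ)⁻¹ * qq ε φ σ k + (mass ε φ σ)⁻¹ * bary φ k * mass ε φ σ = _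
    field_simp
    ring
  have hdbd : ∀ σ k, |d σ k| ≤ 8 * (R ^ 2 * (n * 2 ^ n) * ε) := by
    intro σ k
    have hmσ := hm0 σ
    have h1 := h.abs_qq_le hε hεR σ k
    simp only [hd]
    rw [abs_div, abs_of_pos hmσ, div_le_iff₀ hmσ]
    calc |qq ε φ σ k| ≤ (2 * R) * (n * 2 ^ n * (2 * R * ε)) := h1
      _ = (6 * (R ^ 2 * (n * 2 ^ n) * ε)) * (2 / 3) := by ring
      _ ≤ (8 * (R ^ 2 * (n * 2 ^ n) * ε)) * mass ε φ σ := by
          have := hm σ
          gcongr
          norm_num
  -- the complementary covariance matrix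
  set P : Matrix (Fin n) (Fin n) ℝ := fun k l =>
    (if k = l then v else 0) - (1 / 64) * ∑ σ, c * mass ε φ σ * (d σ k * d σ l) with hP
  have hPs : P.PosSemidef := by
    apply Matrix.PosSemidef.of_dotProduct_mulVec_nonneg
    · refine Matrix.IsHermitian.ext (fun k l => ?_)
      rw [star_trivial]
      have e1 : (if l = k then v else 0) = (if k = l then v else 0) := by
        simp only [eq_comm]
      have e2 : ∑ σ, c * mass ε φ σ * (d σ l * d σ k) = ∑ σ, c * mass ε φ σ * (d σ k * d σ l) :=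
        Finset.sum_congr rfl (fun σ _ => by ring)
      simp only [hP, e1, e2]
    · intro u
      have hq := h.quad_bound hκ hε hεR hK u
      have e : star u ⬝ᵥ P.mulVec u = v * ∑ k, u k ^ 2
          - (1 / 64) * ∑ σ, c * mass ε φ σ * (∑ k, u k * d σ k) ^ 2 := by
        simp only [dotProduct, Matrix.mulVec, hP, star_trivial]
        have e1 : ∀ k, u k * ∑ l, ((if k = l then v else 0)
            - 1 / 64 * ∑ σ, c * mass ε φ σ * (d σ k * d σ l)) * u l
            = v * u k ^ 2 - (1 / 64) * ∑ σ, c * mass ε φ σ * (u k * d σ k * ∑ l, u l * d σ l) := by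
          intro k
          simp only [sub_mul, Finset.sum_sub_distrib, mul_sub]
          congr 1
          · simp; ring
          · simp only [Finset.mul_sum, Finset.sum_mul]
            rw [Finset.sum_comm]
            refine Finset.sum_congr rfl (fun σ _ => Finset.sum_congr rfl (fun l _ => by ring))
        simp only [e1]
        rw [Finset.sum_sub_distrib, ← Finset.mul_sum, ← Finset.mul_sum, Finset.sum_comm]
        congr 2
        refine Finset.sum_congr rfl (fun σ _ => ?_)
        rw [← Finset.mul_sum, ← Finset.sum_mul, sq]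
      rw [e]
      have hU : 0 ≤ ∑ k, u k ^ 2 := Finset.sum_nonneg (fun k _ => sq_nonneg _)
      have h2 : ∑ σ, c * mass ε φ σ * (∑ k, u k * d σ k) ^ 2 ≤ (64 * v) * ∑ k, u k ^ 2 :=
        hq.trans (by gcongr)
      linarith
  obtain ⟨B, hB⟩ := CStarAlgebra.nonneg_iff_eq_star_mul_self.mp hPs.nonneg
  have hB' : ∀ k l, ∑ i, B i k * B i l = P k l := by
    intro k l
    rw [hB]
    simp [Matrix.mul_apply, Matrix.star_apply]
  have hBbd : ∀ i k, |B i k| ≤ ε := by
    intro i k
    have h1 : B i k ^ 2 ≤ v := by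
      calc B i k ^ 2 ≤ ∑ i, B i k * B i k := by
            have := Finset.single_le_sum (f := fun i => B i k * B i k)
              (fun i _ => mul_self_nonneg _) (Finset.mem_univ i)
            simpa [sq] using this
        _ = P k k := hB' k k
        _ ≤ v := by
          simp only [hP, if_true]
          have : 0 ≤ ∑ σ, c * mass ε φ σ * (d σ k * d σ k) := by
            apply Finset.sum_nonneg
            intro σ _
            have := hm0 σ
            have := mul_self_nonneg (d σ k)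
            positivity
          linarith
    exact abs_le_of_sq_le_sq (h1.trans hvε) hε
  set N : ℝ := Real.sqrt n with hN
  have hN2 : N * N = n := Real.mul_self_sqrt (by positivity)
  have hn' : (0:ℝ) < n := by exact_mod_cast hn
  have hNle : N ≤ n := by
    rw [hN]
    rw [Real.sqrt_le_left hn'.le]
    have : (1:ℝ) ≤ n := by exact_mod_cast hn
    nlinarith
  -- moments
  have hmom : ∀ δ : ℝ, δ ^ 2 = 1 → |δ| = 1 →
      Mom (ι := (Fin n → Bool) × Fin n × Bool) (fun j => c * mass ε φ j.1 / (2 * n))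
        (fun j k => (1 / 8) * d j.1 k + δ * sg j.2.2 * N * B j.2.1 k) v
        ((R ^ 2 * (n * 2 ^ n) + n) * ε) := by
    intro δ hδ hδ1
    refine ⟨?_, ?_, ?_⟩
    · intro k
      simp only [Fintype.sum_prod_type, Fintype.sum_bool, sg_true, sg_false]
      have e : ∀ (σ : Fin n → Bool) (i : Fin n),
          c * mass ε φ σ / (2 * n) * (1 / 8 * d σ k + δ * 1 * N * B i k)
          + c * mass ε φ σ / (2 * n) * (1 / 8 * d σ k + δ * -1 * N * B i k)
          = (c / 8) * (qq ε φ σ k) / n := by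
        intro σ i
        have := (hm0 σ).ne'
        simp only [hd]
        field_simp
        ring
      simp only [e, Finset.sum_const, Finset.card_univ, Fintype.card_fin, nsmul_eq_mul]
      have e' : ∀ σ : Fin n → Bool, (n:ℝ) * ((c / 8) * (qq ε φ σ k) / n)
          = (c / 8) * qq ε φ σ k := by
        intro σ; field_simp
      simp only [e']
      rw [← Finset.mul_sum, h.sum_qq, mul_zero]
    · intro k l
      simp only [Fintype.sum_prod_type, Fintype.sum_bool, sg_true, sg_false]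
      have e : ∀ (σ : Fin n → Bool) (i : Fin n),
          c * mass ε φ σ / (2 * n) * ((1 / 8 * d σ k + δ * 1 * N * B i k) *
            (1 / 8 * d σ l + δ * 1 * N * B i l))
          + c * mass ε φ σ / (2 * n) * ((1 / 8 * d σ k + δ * -1 * N * B i k) *
            (1 / 8 * d σ l + δ * -1 * N * B i l))
          = (1 / n) * ((1 / 64) * (c * mass ε φ σ * (d σ k * d σ l)))
            + c * mass ε φ σ * (B i k * B i l) := by
        intro σ i
        have e1 : (1 / 8 * d σ k + δ * 1 * N * B i k) * (1 / 8 * d σ l + δ * 1 * N * B i l)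
            + (1 / 8 * d σ k + δ * -1 * N * B i k) * (1 / 8 * d σ l + δ * -1 * N * B i l)
            = (1 / 32) * (d σ k * d σ l) + 2 * (δ ^ 2 * (N * N)) * (B i k * B i l) := by ring
        rw [← mul_add, e1, hδ, hN2]
        field_simp
        ring
      simp only [e, Finset.sum_add_distrib, Finset.sum_const, Finset.card_univ, Fintype.card_fin,
        nsmul_eq_mul, ← Finset.mul_sum, hB']
      rw [← Finset.sum_mul, ← Finset.mul_sum, h.sum_mass, hpow, one_mul]
      have e4 : P k l = (if k = l then v else 0)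
        - (1 / 64) * ∑ σ, c * mass ε φ σ * (d σ k * d σ l) := rfl
      have e5 : (n:ℝ) * ((1 / n) * ((1 / 64) * ∑ σ, c * mass ε φ σ * (d σ k * d σ l)))
        = (1 / 64) * ∑ σ, c * mass ε φ σ * (d σ k * d σ l) := by field_simp
      rw [e5, e4]
      ring
    · intro j
      rw [pi_norm_le_iff_of_nonneg (by positivity)]
      intro k
      rw [Real.norm_eq_abs]
      calc |1 / 8 * d j.1 k + δ * sg j.2.2 * N * B j.2.1 k|
          ≤ |1 / 8 * d j.1 k| + |δ * sg j.2.2 * N * B j.2.1 k| := abs_add_le _ _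
        _ = 1 / 8 * |d j.1 k| + N * |B j.2.1 k| := by
            have hN0 : |N| = N := abs_of_nonneg (Real.sqrt_nonneg _)
            rw [abs_mul, abs_mul, abs_mul, abs_mul, abs_sg, hδ1, hN0]
            norm_num
        _ ≤ 1 / 8 * (8 * (R ^ 2 * (n * 2 ^ n) * ε)) + n * ε := by
            gcongr
            · exact hdbd _ _
            · exact hBbd _ _
        _ = _ := by ring
  -- index type and data
  refine ⟨⟨(Fin n → Bool) × Fin n × Bool, inferInstance,
    fun j => c * mass ε φ j.1 / (2 * n), fun j => ψ j.1,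
    fun j k => (1 / 8) * d j.1 k + sg j.2.2 * N * B j.2.1 k,
    fun j k => (1 / 8) * d j.1 k - sg j.2.2 * N * B j.2.1 k, ?_, ?_, ?_, ?_, ?_, ?_, ?_⟩⟩
  · intro j
    have := hm0 j.1
    positivity
  · simp only [Fintype.sum_prod_type]
    simp only [Finset.sum_const, Finset.card_univ, Fintype.card_bool, Fintype.card_fin,
      nsmul_eq_mul]
    have : ∀ σ : Fin n → Bool, (n : ℝ) * (((2:ℕ):ℝ) * (c * mass ε φ σ / (2 * n)))
        = c * mass ε φ σ := by
      intro σ; push_cast; field_simp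
    simp only [this]
    rw [← Finset.mul_sum, h.sum_mass, hpow]
  · intro j; exact hψD j.1
  · intro x
    simp only [Fintype.sum_prod_type]
    simp only [Finset.sum_const, Finset.card_univ, Fintype.card_bool, Fintype.card_fin,
      nsmul_eq_mul]
    have : ∀ σ : Fin n → Bool, (n : ℝ) * (((2:ℕ):ℝ) * (c * mass ε φ σ / (2 * n) * ψ σ x))
        = c * (wt ε (bary φ) σ x * φ x) := by
      intro σ
      have := hm0 σ
      simp only [hψ]
      push_cast; field_simp
    simp only [this]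
    rw [← Finset.mul_sum, ← Finset.sum_mul, sum_wt, ← mul_assoc, hpow, one_mul]
  · intro j
    funext k
    simp only [Pi.smul_apply, Pi.add_apply, Pi.sub_apply, smul_eq_mul, hbary]
    ring
  · have := hmom 1 (by norm_num) (by norm_num)
    simpa using this
  · have := hmom (-1) (by norm_num) (by norm_num)
    convert this using 3
    ring

end Pool.Agent.Talagrand
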