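import Pool.Agent.Talagrand.Minim

/-!
# Stationarity of the minimiser
-/

set_option autoImplicit false

open MeasureTheory ProbabilityTheory Set Metric
open scoped ENNReal NNReal

namespace Pool.Agent.Talagrand

variable {n : ℕ} {ι : Type} [Fintype ι]

open Classical in
lemma aff_perturb (x h : ι → Fin n → ℝ) (i : ι) (k : Fin n) (s : ℝ) (j : ι) (y : Fin n → ℝ) :
    aff x (h + s • (Pi.single i (Pi.single k (1:ℝ)) : ι → Fin n → ℝ)) j y
      = aff x h j y + s * (if j = i then y k - x i k else 0) := by
  unfold aff
  rw [add_assoc]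
  congr 1
  have e : ∀ l : Fin n, (h + s • (Pi.single i (Pi.single k (1:ℝ)) : ι → Fin n → ℝ)) j l
      * (y l - x j l) = h j l * (y l - x j l)
        + (if j = i then (if l = k then s * (y k - x i k) else 0) else 0) := by
    intro l
    by_cases hj : j = i
    · subst hj
      by_cases hl : l = k
      · subst hl; simp; ring
      · simp [hl]
    · simp [hj]
  simp only [e, Finset.sum_add_distrib]
  congr 1
  by_cases hj : j = i
  · simp [hj]
  · simp [hj]

open Classical in
lemma hasDerivAt_sm {β : ℝ} (hβ : 0 < β) (x h : ι → Fin n → ℝ) (i : ι) (k : Fin n)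
    (y : Fin n → ℝ) (s : ℝ) :
    HasDerivAt (fun s : ℝ => sm β x (h + s • (Pi.single i (Pi.single k (1:ℝ)) : ι → Fin n → ℝ)) y)
      (rho β x (h + s • (Pi.single i (Pi.single k (1:ℝ)) : ι → Fin n → ℝ)) i y
        * (y k - x i k)) s := by
  set e : ι → Fin n → ℝ := Pi.single i (Pi.single k (1:ℝ)) with he
  have h1 : ∀ j : ι, HasDerivAt (fun s : ℝ => Real.exp (β * aff x (h + s • e) j y))
      (Real.exp (β * aff x (h + s • e) j y) * (β * (if j = i then y k - x i k else 0))) s := by
    intro j
    have a1 : HasDerivAt (fun s : ℝ => β * aff x (h + s • e) j y)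
        (β * (if j = i then y k - x i k else 0)) s := by
      have a2 : (fun s : ℝ => β * aff x (h + s • e) j y)
          = fun s => β * (aff x h j y + s * (if j = i then y k - x i k else 0)) := by
        funext s
        rw [he, aff_perturb]
      rw [a2]
      have := (((hasDerivAt_id s).mul_const (if j = i then y k - x i k else 0)).const_add
        (aff x h j y)).const_mul β
      simpa using this
    exact a1.exp
  have h2 : HasDerivAt (fun s : ℝ => ZZ β x (h + s • e) y)
      (Real.exp (β * aff x (h + s • e) i y) * (β * (y k - x i k))) s := by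
    have b1 := (HasDerivAt.fun_sum (u := (Finset.univ : Finset ι))
      (fun j _ => h1 j)).const_add 1
    have b2 : ∑ j : ι, Real.exp (β * aff x (h + s • e) j y)
        * (β * (if j = i then y k - x i k else 0))
        = Real.exp (β * aff x (h + s • e) i y) * (β * (y k - x i k)) := by
      rw [Finset.sum_eq_single i]
      · simp
      · intro j _ hj
        simp [hj]
      · intro hi
        exact absurd (Finset.mem_univ i) hi
    rw [b2] at b1
    exact b1
  have h3 := (h2.log (ZZ_pos (β := β) (x := x) (h := h + s • e) (y := y)).ne').const_mul (1 / β)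
  refine h3.congr_deriv ?_
  unfold rho
  field_simp

lemma stationary {β R R₁ : ℝ} (hβ : 0 < β) {x : ι → Fin n → ℝ} (hx : ∀ i, ‖x i‖ ≤ R₁)
    {h : ι → Fin n → ℝ} (hmin : ∀ h', Psi β R x h ≤ Psi β R x h') (i : ι) (k : Fin n) :
    ∫ y in closedBall (0 : Fin n → ℝ) R, rho β x h i y * (y k - x i k) ∂(gam n) = 0 := by
  classical
  set e : ι → Fin n → ℝ := Pi.single i (Pi.single k (1:ℝ)) with he
  have hder := hasDerivAt_integral_of_dominated_loc_of_deriv_le (𝕜 := ℝ)
    (μ := (gam n).restrict (closedBall (0 : Fin n → ℝ) R)) (s := univ) (x₀ := (0:ℝ))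
    (F := fun (s : ℝ) (y : Fin n → ℝ) => sm β x (h + s • e) y)
    (F' := fun (s : ℝ) (y : Fin n → ℝ) => rho β x (h + s • e) i y * (y k - x i k))
    (bound := fun _ => R + R₁) Filter.univ_mem
    (Filter.Eventually.of_forall (fun s => (sm_cont _ _ _).aestronglyMeasurable))
    (integrableOn_ball (sm_cont _ _ _))
    (by
      have := rho_cont β x (h + (0:ℝ) • e) i
      exact (by fun_prop : Continuous fun y : Fin n → ℝ =>
        rho β x (h + (0:ℝ) • e) i y * (y k - x i k)).aestronglyMeasurable)
    (by
      filter_upwards [ae_restrict_mem measurableSet_closedBall] with y hy s _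
      rw [norm_mul]
      have h1 : ‖rho β x (h + s • e) i y‖ ≤ 1 := by
        rw [Real.norm_eq_abs, abs_of_pos rho_pos]
        exact rho_le_one
      have h2 : ‖y k - x i k‖ ≤ R + R₁ :=
        (norm_le_pi_norm (y - x i) k).trans (dist_bound hx hy i)
      calc ‖rho β x (h + s • e) i y‖ * ‖y k - x i k‖ ≤ 1 * (R + R₁) := by
            gcongr
        _ = _ := one_mul _)
    (integrable_const _)
    (Filter.Eventually.of_forall (fun y s _ => hasDerivAt_sm hβ x h i k y s))
  have hloc : IsLocalMin (fun s : ℝ => ∫ y in closedBall (0 : Fin n → ℝ) R,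
      sm β x (h + s • e) y ∂(gam n)) 0 := by
    apply Filter.Eventually.of_forall
    intro s
    simp only [zero_smul, add_zero]
    exact hmin (h + s • e)
  have := hloc.hasDerivAt_eq_zero hder.2
  simpa using this

/-- Total mass of the pieces at the minimiser. -/
lemma mass_lower {β R R₁ : ℝ} (hβ : 0 < β) {x : ι → Fin n → ℝ} (hx : ∀ i, ‖x i‖ ≤ R₁)
    {h : ι → Fin n → ℝ} (hmin : ∀ h', Psi β R x h ≤ Psi β R x h') :
    Psi β R x h ≤ (∑ i, ∫ y in closedBall (0 : Fin n → ℝ) R, rho β x h i y ∂(gam n))
      + (1 / β) * Real.log (Fintype.card ι + 1) := by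
  have hc : ∀ i, Continuous (fun y => rho β x h i y) := fun i => rho_cont β x h i
  have ha : ∀ i, Continuous (fun y => aff x h i y) := fun i => aff_cont x h i
  have h1 : Psi β R x h ≤ ∫ y in closedBall (0 : Fin n → ℝ) R,
      ((∑ i, rho β x h i y * aff x h i y) + (1 / β) * Real.log (Fintype.card ι + 1)) ∂(gam n) := by
    unfold Psi
    apply setIntegral_mono (integrableOn_ball (sm_cont _ _ _)) (integrableOn_ball (by fun_prop))
    intro y
    exact sm_le hβ
  refine h1.trans ?_
  rw [integral_add (integrableOn_ball (by fun_prop)) (integrableOn_ball continuous_const)]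
  have h2 : ∫ y in closedBall (0 : Fin n → ℝ) R, (∑ i, rho β x h i y * aff x h i y) ∂(gam n)
      = ∑ i, ∫ y in closedBall (0 : Fin n → ℝ) R, rho β x h i y ∂(gam n) := by
    rw [integral_finsetSum _ (fun i _ => integrableOn_ball (by fun_prop))]
    refine Finset.sum_congr rfl (fun i _ => ?_)
    have e : ∀ y : Fin n → ℝ, rho β x h i y * aff x h i y
        = rho β x h i y + ∑ k, h i k * (rho β x h i y * (y k - x i k)) := by
      intro y
      unfold aff
      rw [mul_add, mul_one, Finset.mul_sum]
      congr 1
      exact Finset.sum_congr rfl (fun k _ => by ring)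
    simp only [e]
    rw [integral_add (integrableOn_ball (hc i)) (integrableOn_ball (by fun_prop)),
      integral_finsetSum _ (fun k _ => integrableOn_ball (by fun_prop))]
    have : ∑ k, ∫ y in closedBall (0 : Fin n → ℝ) R,
        h i k * (rho β x h i y * (y k - x i k)) ∂(gam n) = 0 := by
      apply Finset.sum_eq_zero
      intro k _
      rw [integral_const_mul, stationary hβ hx hmin i k, mul_zero]
    rw [this, add_zero]
  rw [h2]
  have h3 : ∫ _y in closedBall (0 : Fin n → ℝ) R, (1 / β) * Real.log (Fintype.card ι + 1) ∂(gam n)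
      ≤ (1 / β) * Real.log (Fintype.card ι + 1) := by
    simp only [integral_const, MeasurableSet.univ, measureReal_restrict_apply, univ_inter,
      smul_eq_mul]
    have h4 := measure_ball_le_one (n := n) (R := R)
    have h5 : 0 ≤ (1 / β) * Real.log (Fintype.card ι + 1) := by
      have : 0 ≤ Real.log ((Fintype.card ι : ℝ) + 1) := Real.log_nonneg (by
        have : (0:ℝ) ≤ Fintype.card ι := by positivity
        linarith)
      positivity
    nlinarith
  linarith

end Pool.Agent.Talagrand
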