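import Pool.Agent.Talagrand.LC

/-!
# Splitting a strongly log-concave density into more log-concave pieces
-/

set_option autoImplicit false

open MeasureTheory Set
open scoped ENNReal

namespace Pool.Agent.Talagrand

/-- The sign of a boolean. -/
noncomputable def sg (b : Bool) : ℝ := if b then 1 else -1

@[simp] lemma sg_true : sg true = 1 := rfl
@[simp] lemma sg_false : sg false = -1 := rfl
lemma sg_sq (b : Bool) : sg b ^ 2 = 1 := by cases b <;> simp
lemma abs_sg (b : Bool) : |sg b| = 1 := by cases b <;> simp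
lemma sg_not (b : Bool) : sg (!b) = - sg b := by cases b <;> simp

variable {n : ℕ} {R κ : ℝ} {φ : (Fin n → ℝ) → ℝ}

lemma sum_prod_tilt (t : Fin n → ℝ) :
    ∑ σ : Fin n → Bool, ∏ k, (1 + sg (σ k) * t k) = 2 ^ n := by
  have h := (Finset.prod_univ_sum (fun _ : Fin n => (Finset.univ : Finset Bool))
    (fun k b => 1 + sg b * t k))
  rw [Fintype.piFinset_univ] at h
  rw [← h]
  have : ∀ k : Fin n, ∑ b : Bool, (1 + sg b * t k) = 2 := by
    intro k; simp; ring
  rw [Finset.prod_congr rfl (fun k _ => this k)]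
  simp

lemma sum_sign_mul (i j : Fin n) :
    ∑ σ : Fin n → Bool, sg (σ i) * sg (σ j) = if i = j then 2 ^ n else 0 := by
  split_ifs with hij
  · subst hij
    simp only [← sq, sg_sq]
    simp
  · set S := ∑ σ : Fin n → Bool, sg (σ i) * sg (σ j) with hS
    have hinv : Function.Involutive (fun σ : Fin n → Bool => Function.update σ i (!(σ i))) := by
      intro σ
      simp
    have h1 : S = ∑ σ : Fin n → Bool, - (sg (σ i) * sg (σ j)) := by
      rw [hS, ← Equiv.sum_comp (hinv.toPerm)]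
      apply Finset.sum_congr rfl
      intro σ _
      simp only [Function.Involutive.coe_toPerm, Function.update_self]
      rw [Function.update_of_ne (Ne.symm hij), sg_not]
      ring
    rw [Finset.sum_neg_distrib, ← hS] at h1
    linarith

lemma sum_sq_sign (c : Fin n → ℝ) :
    ∑ σ : Fin n → Bool, (∑ k, c k * sg (σ k)) ^ 2 = 2 ^ n * ∑ k, c k ^ 2 := by
  have h1 : ∀ σ : Fin n → Bool, (∑ k, c k * sg (σ k)) ^ 2
      = ∑ i, ∑ j, c i * c j * (sg (σ i) * sg (σ j)) := by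
    intro σ
    rw [sq, Finset.sum_mul_sum]
    exact Finset.sum_congr rfl (fun i _ => Finset.sum_congr rfl (fun j _ => by ring))
  simp only [h1]
  rw [Finset.sum_comm]
  simp only [Finset.sum_comm (s := (Finset.univ : Finset (Fin n → Bool))), ← Finset.mul_sum,
    sum_sign_mul]
  simp only [mul_ite, mul_zero, Finset.sum_ite_eq, Finset.mem_univ, if_true]
  rw [Finset.mul_sum]
  exact Finset.sum_congr rfl (fun i _ => by ring)

lemma prod_one_add_bounds {ι : Type*} (s : Finset ι) (t : ι → ℝ) {τ : ℝ} (h0 : 0 ≤ τ)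
    (h1 : τ ≤ 1) (ht : ∀ k ∈ s, |t k| ≤ τ) :
    |∏ k ∈ s, (1 + t k)| ≤ 2 ^ s.card ∧
    |∏ k ∈ s, (1 + t k) - 1| ≤ s.card * 2 ^ s.card * τ ∧
    |∏ k ∈ s, (1 + t k) - 1 - ∑ k ∈ s, t k| ≤ s.card ^ 2 * 2 ^ s.card * τ ^ 2 := by
  classical
  induction s using Finset.induction_on with
  | empty => simp
  | insert a s ha ih =>
    obtain ⟨i1, i2, i3⟩ := ih (fun k hk => ht k (Finset.mem_insert_of_mem hk))
    have hta := ht a (Finset.mem_insert_self _ _)
    rw [Finset.prod_insert ha, Finset.card_insert_of_notMem ha, Finset.sum_insert ha]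
    set P := ∏ k ∈ s, (1 + t k) with hP
    set S := ∑ k ∈ s, t k with hS
    set c : ℕ := s.card with hc
    have hp2 : (0:ℝ) < 2 ^ c := by positivity
    have h1ta : |1 + t a| ≤ 2 := by
      calc |1 + t a| ≤ |1| + |t a| := abs_add_le _ _
        _ ≤ 1 + 1 := by rw [abs_one]; linarith
        _ = 2 := by norm_num
    refine ⟨?_, ?_, ?_⟩
    · rw [abs_mul, pow_succ, mul_comm ((2:ℝ)^c) 2]
      gcongr
    · have e : (1 + t a) * P - 1 = (P - 1) + t a * P := by ring
      rw [e]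
      calc |(P - 1) + t a * P| ≤ |P - 1| + |t a| * |P| := by
            rw [← abs_mul]; exact abs_add_le _ _
        _ ≤ c * 2 ^ c * τ + τ * 2 ^ c := by gcongr
        _ ≤ _ := by
            push_cast
            rw [pow_succ]
            have : 0 ≤ (c:ℝ) * 2 ^ c * τ := by positivity
            nlinarith [mul_nonneg hp2.le h0]
    · have e : (1 + t a) * P - 1 - (t a + S) = (P - 1 - S) + t a * (P - 1) := by ring
      rw [e]
      calc |(P - 1 - S) + t a * (P - 1)| ≤ |P - 1 - S| + |t a| * |P - 1| := by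
            rw [← abs_mul]; exact abs_add_le _ _
        _ ≤ c ^ 2 * 2 ^ c * τ ^ 2 + τ * (c * 2 ^ c * τ) := by gcongr
        _ ≤ _ := by
            push_cast
            rw [show (2:ℝ) ^ (c + 1) = 2 * 2 ^ c by ring]
            have h5 : 0 ≤ (c:ℝ) * 2 ^ c * τ ^ 2 := by positivity
            have h6 : 0 ≤ (c:ℝ) ^ 2 * 2 ^ c * τ ^ 2 := by positivity
            have h7 : 0 ≤ (2:ℝ) ^ c * τ ^ 2 := by positivity
            nlinarith

/-- The one coordinate log-concavity gain. -/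
lemma one_coord {a b : ℝ} (ha : |a| ≤ 1 / 10) (hb : |b| ≤ 1 / 10) :
    (1 + a) * (1 + b) * Real.exp ((a - b) ^ 2 / 8) ≤ (1 + (a + b) / 2) ^ 2 := by
  rw [abs_le] at ha hb
  set d := (a - b) ^ 2 with hd
  have hd0 : 0 ≤ d := sq_nonneg _
  have hd1 : d ≤ 1 / 25 := by
    have h1 : |a - b| ≤ 1 / 5 := by rw [abs_le]; constructor <;> linarith
    have h2 : |a - b| ^ 2 ≤ (1 / 5) ^ 2 := by gcongr
    rw [sq_abs] at h2
    rw [hd]; linarith
  have he : Real.exp (d / 8) ≤ 1 + d / 8 + (d / 8) ^ 2 := by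
    have h := Real.abs_exp_sub_one_sub_id_le (x := d / 8) (by
      rw [abs_of_nonneg (by positivity)]; linarith)
    have := (abs_le.mp h).2
    linarith
  have he2 : Real.exp (d / 8) ≤ 1 + d * (101 / 800) := by nlinarith
  have hP : (1 + a) * (1 + b) ≤ 121 / 100 := by nlinarith
  have hP0 : 0 ≤ (1 + a) * (1 + b) := by
    apply mul_nonneg <;> linarith
  calc (1 + a) * (1 + b) * Real.exp (d / 8) ≤ (1 + a) * (1 + b) * (1 + d * (101 / 800)) := by
        gcongr
    _ = (1 + a) * (1 + b) + ((1 + a) * (1 + b)) * (d * (101 / 800)) := by ring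
    _ ≤ (1 + a) * (1 + b) + (121 / 100) * (d * (101 / 800)) := by gcongr
    _ ≤ (1 + a) * (1 + b) + d / 4 := by nlinarith
    _ = (1 + (a + b) / 2) ^ 2 := by rw [hd]; ring

/-- The tilting weight. -/
noncomputable def wt (ε : ℝ) (b : Fin n → ℝ) (σ : Fin n → Bool) (x : Fin n → ℝ) : ℝ :=
  ∏ k, (1 + sg (σ k) * (ε * (x k - b k)))

lemma wt_cont (ε : ℝ) (b : Fin n → ℝ) (σ : Fin n → Bool) : Continuous (wt ε b σ) := by
  unfold wt
  fun_prop

lemma sum_wt (ε : ℝ) (b : Fin n → ℝ) (x : Fin n → ℝ) :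
    ∑ σ : Fin n → Bool, wt ε b σ x = 2 ^ n := sum_prod_tilt _

lemma coord_bound {x b : Fin n → ℝ} {R ε : ℝ} (hε : 0 ≤ ε)
    (hx : ‖x‖ ≤ R) (hb : ‖b‖ ≤ R) (s : Bool) (k : Fin n) :
    |sg s * (ε * (x k - b k))| ≤ 2 * R * ε := by
  rw [abs_mul, abs_sg, one_mul, abs_mul, abs_of_nonneg hε]
  have h1 : |x k| ≤ R := (norm_le_pi_norm x k).trans hx
  have h2 : |b k| ≤ R := (norm_le_pi_norm b k).trans hb
  have h3 : |x k - b k| ≤ 2 * R := by
    calc |x k - b k| ≤ |x k| + |b k| := abs_sub _ _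
      _ ≤ 2 * R := by linarith
  nlinarith

lemma LC.tilt (hlc : LC κ φ) (hnn : ∀ x, 0 ≤ φ x) (hsupp : ∀ x, φ x ≠ 0 → ‖x‖ ≤ R)
    {ε : ℝ} (hε : 0 ≤ ε) (hεR : 2 * R * ε ≤ 1 / 10) {b : Fin n → ℝ} (hb : ‖b‖ ≤ R)
    (σ : Fin n → Bool) : LC (κ + ε ^ 2 / 2) (fun x => wt ε b σ x * φ x) := by
  intro x y
  by_cases hx : φ x = 0
  · simp only [hx]; simp; positivity
  by_cases hy : φ y = 0
  · simp only [hy]; simp; positivity
  have hxR := hsupp x hx
  have hyR := hsupp y hy
  have hw : wt ε b σ x * wt ε b σ y * Real.exp (ε ^ 2 / 8 * ∑ i, (x i - y i) ^ 2)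
      ≤ wt ε b σ ((1 / 2 : ℝ) • (x + y)) ^ 2 := by
    unfold wt
    rw [Finset.mul_sum, Real.exp_sum, ← Finset.prod_mul_distrib, ← Finset.prod_mul_distrib,
      ← Finset.prod_pow]
    apply Finset.prod_le_prod
    · intro k _
      have h1 := (coord_bound hε hxR hb (σ k) k).trans hεR
      have h2 := (coord_bound hε hyR hb (σ k) k).trans hεR
      rw [abs_le] at h1 h2
      have : 0 ≤ 1 + sg (σ k) * (ε * (x k - b k)) := by linarith
      have : 0 ≤ 1 + sg (σ k) * (ε * (y k - b k)) := by linarith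
      positivity
    · intro k _
      have h1 := (coord_bound hε hxR hb (σ k) k).trans hεR
      have h2 := (coord_bound hε hyR hb (σ k) k).trans hεR
      have h3 := one_coord h1 h2
      have e1 : (sg (σ k) * (ε * (x k - b k)) - sg (σ k) * (ε * (y k - b k))) ^ 2 / 8
          = ε ^ 2 / 8 * (x k - y k) ^ 2 := by
        have : (sg (σ k) * (ε * (x k - b k)) - sg (σ k) * (ε * (y k - b k)))
          = sg (σ k) * (ε * (x k - y k)) := by ring
        rw [this, mul_pow, sg_sq]; ring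
      rw [e1] at h3
      refine h3.trans (le_of_eq ?_)
      congr 1
      simp only [Pi.smul_apply, Pi.add_apply, smul_eq_mul]
      ring
  have hl := hlc x y
  have e2 : Real.exp ((κ + ε ^ 2 / 2) / 4 * ∑ i, (x i - y i) ^ 2)
      = Real.exp (ε ^ 2 / 8 * ∑ i, (x i - y i) ^ 2) * Real.exp (κ / 4 * ∑ i, (x i - y i) ^ 2) := by
    rw [← Real.exp_add]; congr 1; ring
  simp only
  rw [e2]
  have hnx := hnn x
  have hny := hnn y
  calc wt ε b σ x * φ x * (wt ε b σ y * φ y) *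
        (Real.exp (ε ^ 2 / 8 * ∑ i, (x i - y i) ^ 2) * Real.exp (κ / 4 * ∑ i, (x i - y i) ^ 2))
      = (wt ε b σ x * wt ε b σ y * Real.exp (ε ^ 2 / 8 * ∑ i, (x i - y i) ^ 2)) *
        (φ x * φ y * Real.exp (κ / 4 * ∑ i, (x i - y i) ^ 2)) := by ring
    _ ≤ (wt ε b σ ((1 / 2 : ℝ) • (x + y)) ^ 2) * (φ ((1 / 2 : ℝ) • (x + y)) ^ 2) := by
        gcongr
    _ = _ := by ring

end Pool.Agent.Talagrand
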